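import Mathlib

/-!
# Basic facts on left and right distributive domains

These lemmas (maximal one-sided ideals are two-sided with division residue ring, Ore conditions,
local generators, the ring of fractions, the projectivity criterion) are taken from the file
Pool/Agent/Results/MP_b53a41_al/TraceExchange.lean of this project.
-/

universe u

namespace Pool.Agent.H8.Dist

/-- `IsRes A M`: the set `M` is a two-sided ideal of `A` such that `A / M` is a division ring
(used only inside the proof). -/
structure IsRes (A : Type u) [Ring A] (M : Set A) : Prop where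
  zero : (0 : A) ∈ M
  add : ∀ x ∈ M, ∀ y ∈ M, x + y ∈ M
  mul_left : ∀ a, ∀ x ∈ M, a * x ∈ M
  mul_right : ∀ a, ∀ x ∈ M, x * a ∈ M
  one : (1 : A) ∉ M
  inv : ∀ x, x ∉ M → ∃ y, x * y - 1 ∈ M ∧ y * x - 1 ∈ M

/-- Element-wise form of right distributivity (used only inside the proof). -/
def RD (A : Type u) [Ring A] : Prop :=
  ∀ a b : A, ∃ x y z : A, a * x = b * y ∧ b * (1 - x) = a * z

/-- Element-wise form of left distributivity (used only inside the proof). -/
def LD (A : Type u) [Ring A] : Prop :=
  ∀ a b : A, ∃ x y z : A, x * a = y * b ∧ (1 - x) * b = z * a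

section basics
variable {A : Type u} [Ring A] {M : Set A}

theorem IsRes.neg (h : IsRes A M) {x : A} (hx : x ∈ M) : -x ∈ M := by
  have := h.mul_left (-1) x hx
  simpa using this

theorem IsRes.sub (h : IsRes A M) {x y : A} (hx : x ∈ M) (hy : y ∈ M) : x - y ∈ M := by
  rw [sub_eq_add_neg]; exact h.add _ hx _ (h.neg hy)

theorem IsRes.sum (h : IsRes A M) {ι : Type*} (s : Finset ι) (f : ι → A)
    (hf : ∀ i ∈ s, f i ∈ M) : ∑ i ∈ s, f i ∈ M := by
  classical
  induction s using Finset.induction_on with
  | empty => simpa using h.zero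
  | insert a s ha ih =>
    rw [Finset.sum_insert ha]
    exact h.add _ (hf _ (Finset.mem_insert_self _ _)) _
      (ih (fun i hi => hf i (Finset.mem_insert_of_mem hi)))

theorem IsRes.prime (h : IsRes A M) {x y : A} (hx : x ∉ M) (hy : y ∉ M) : x * y ∉ M := by
  intro hxy
  obtain ⟨x', -, hx'⟩ := h.inv x hx
  apply hy
  have h1 : x' * (x * y) ∈ M := h.mul_left _ _ hxy
  have h2 : (x' * x - 1) * y ∈ M := h.mul_right _ _ hx'
  have h3 := h.sub h1 h2
  have h4 : x' * (x * y) - (x' * x - 1) * y = y := by noncomm_ring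
  rwa [h4] at h3

theorem ore_right (hR : RD A) (h : IsRes A M) (b t : A) (ht : t ∉ M) :
    ∃ t' b', t' ∉ M ∧ b * t' = t * b' := by
  obtain ⟨x, y, z, h1, h2⟩ := hR b t
  by_cases hx : x ∈ M
  · have h1x : 1 - x ∉ M := by
      intro hh
      apply h.one
      have := h.add _ hh _ hx
      simpa using this
    have hz : z ∉ M := by
      intro hz
      have h3 : b * z ∈ M := h.mul_left _ _ hz
      rw [← h2] at h3
      exact h.prime ht h1x h3
    exact ⟨z, 1 - x, hz, h2.symm⟩
  · exact ⟨x, y, hx, h1⟩

theorem ore_left (hL : LD A) (h : IsRes A M) (b t : A) (ht : t ∉ M) :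
    ∃ t' b', t' ∉ M ∧ t' * b = b' * t := by
  obtain ⟨x, y, z, h1, h2⟩ := hL b t
  by_cases hx : x ∈ M
  · have h1x : 1 - x ∉ M := by
      intro hh
      apply h.one
      have := h.add _ hh _ hx
      simpa using this
    have hz : z ∉ M := by
      intro hz
      have h3 : z * b ∈ M := h.mul_right _ _ hz
      rw [← h2] at h3
      exact h.prime h1x ht h3
    exact ⟨z, 1 - x, hz, h2.symm⟩
  · exact ⟨x, y, hx, h1⟩

/-- finite version of the right Ore condition -/
theorem ore_right_fin (hR : RD A) (h : IsRes A M) {n : ℕ} (b s : Fin n → A)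
    (hs : ∀ k, s k ∉ M) : ∃ (t : A) (b' : Fin n → A), t ∉ M ∧ ∀ k, b k * t = s k * b' k := by
  induction n with
  | zero => exact ⟨1, fun _ => 0, h.one, fun k => k.elim0⟩
  | succ n ih =>
    obtain ⟨t, b', ht, hb'⟩ := ih (fun k => b k.succ) (fun k => s k.succ) (fun k => hs _)
    obtain ⟨t', c, ht', hc⟩ := ore_right hR h (b 0 * t) (s 0) (hs 0)
    refine ⟨t * t', Fin.cons c (fun k => b' k * t'), h.prime ht ht', ?_⟩
    intro k
    refine Fin.cases ?_ (fun k => ?_) k
    · simp only [Fin.cons_zero]
      rw [← mul_assoc, hc]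
    · simp only [Fin.cons_succ]
      rw [← mul_assoc, hb' k, mul_assoc]

theorem ore_left_fin (hL : LD A) (h : IsRes A M) {n : ℕ} (b s : Fin n → A)
    (hs : ∀ k, s k ∉ M) : ∃ (t : A) (b' : Fin n → A), t ∉ M ∧ ∀ k, t * b k = b' k * s k := by
  induction n with
  | zero => exact ⟨1, fun _ => 0, h.one, fun k => k.elim0⟩
  | succ n ih =>
    obtain ⟨t, b', ht, hb'⟩ := ih (fun k => b k.succ) (fun k => s k.succ) (fun k => hs _)
    obtain ⟨t', c, ht', hc⟩ := ore_left hL h (t * b 0) (s 0) (hs 0)
    refine ⟨t' * t, Fin.cons c (fun k => t' * b' k), h.prime ht' ht, ?_⟩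
    intro k
    refine Fin.cases ?_ (fun k => ?_) k
    · simp only [Fin.cons_zero]
      rw [mul_assoc, hc]
    · simp only [Fin.cons_succ]
      rw [mul_assoc, hb' k, mul_assoc]

/-- A generator that is locally (at `M`) a generator of the right ideal. -/
theorem exists_local_gen (hR : RD A) (h : IsRes A M) {n : ℕ} (a : Fin n → A) (i₀ : Fin n) :
    ∃ j, ∀ i, ∃ s b, s ∉ M ∧ a i * s = a j * b := by
  classical
  have key : ∀ S : Finset (Fin n), S.Nonempty →
      ∃ j ∈ S, ∀ i ∈ S, ∃ s b, s ∉ M ∧ a i * s = a j * b := by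
    intro S hS
    induction hS using Finset.Nonempty.cons_induction with
    | singleton i =>
      refine ⟨i, by simp, ?_⟩
      intro i' hi'
      rw [Finset.mem_singleton] at hi'
      subst hi'
      exact ⟨1, 1, h.one, rfl⟩
    | cons i S hi hS ih =>
      obtain ⟨j, hj, hjS⟩ := ih
      obtain ⟨x, y, z, h1, h2⟩ := hR (a i) (a j)
      by_cases hx : x ∈ M
      · have h1x : 1 - x ∉ M := by
          intro hh
          apply h.one
          have := h.add _ hh _ hx
          simpa using this
        refine ⟨i, by simp, ?_⟩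
        intro i' hi'
        rw [Finset.mem_cons] at hi'
        rcases hi' with rfl | hi'
        · exact ⟨1, 1, h.one, rfl⟩
        · obtain ⟨s, b, hs, hsb⟩ := hjS i' hi'
          obtain ⟨t', b', ht', hb'⟩ := ore_right hR h b (1 - x) h1x
          refine ⟨s * t', z * b', h.prime hs ht', ?_⟩
          rw [← mul_assoc, hsb, mul_assoc, hb', ← mul_assoc, h2, mul_assoc]
      · refine ⟨j, by simp [hj], ?_⟩
        intro i' hi'
        rw [Finset.mem_cons] at hi'
        rcases hi' with rfl | hi'
        · exact ⟨x, y, hx, h1⟩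
        · exact hjS i' hi'
  obtain ⟨j, -, hj⟩ := key Finset.univ ⟨i₀, Finset.mem_univ _⟩
  exact ⟨j, fun i => hj i (Finset.mem_univ _)⟩

/-- In a left distributive ring every maximal left ideal is a two-sided ideal with a division
ring as factor ring. -/
theorem isRes_of_isMaximal (hL : LD A) (M : Ideal A) (hM : M.IsMaximal) : IsRes A (M : Set A) := by
  have h1 : (1 : A) ∉ M := fun h => hM.ne_top ((Ideal.eq_top_iff_one M).2 h)
  have hinv : ∀ x, x ∉ M → ∃ b, b * x - 1 ∈ M := by
    intro x hx
    obtain ⟨b, m, hm⟩ := Ideal.mem_span_singleton_sup.1 (show (1 : A) ∈ Ideal.span {x} ⊔ M by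
      have : Ideal.span {x} ⊔ M = ⊤ := by
        by_contra hne
        have hle : M ≤ Ideal.span {x} ⊔ M := le_sup_right
        have := hM.eq_of_le hne hle
        apply hx
        rw [this]
        exact (le_sup_left : Ideal.span {x} ≤ Ideal.span {x} ⊔ M) (Ideal.mem_span_singleton_self x)
      rw [this]; trivial)
    obtain ⟨hm1, hm2⟩ := hm
    refine ⟨b, ?_⟩
    have : b * x - 1 = -m := by rw [← hm2]; abel
    rw [this]
    exact M.neg_mem hm1
  have hr : ∀ a, ∀ m ∈ M, m * a ∈ M := by
    intro a m hm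
    by_contra hma
    obtain ⟨b, hb⟩ := hinv (m * a) hma
    set m1 := 1 - b * (m * a) with hm1
    have hm1M : m1 ∈ M := by
      have := M.neg_mem hb
      rwa [neg_sub] at this
    set μ := a * b * m with hμ
    have hμM : μ ∈ M := M.mul_mem_left _ hm
    set ν := 1 - μ with hν
    have hνa : ν * a ∈ M := by
      have : ν * a = a * m1 := by rw [hν, hμ, hm1]; noncomm_ring
      rw [this]; exact M.mul_mem_left _ hm1M
    obtain ⟨x, y, z, hx, hz⟩ := hL (μ + a * ν) μ
    have aux : ∀ w : A, w * (μ + a * ν) ∈ M → w * a ∈ M := by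
      intro w hw
      have e : w * a = w * (μ + a * ν) - w * μ + (w * a) * μ := by rw [hν]; noncomm_ring
      rw [e]
      exact M.add_mem (M.sub_mem hw (M.mul_mem_left _ hμM)) (M.mul_mem_left _ hμM)
    have hxa : x * a ∈ M := aux x (by rw [hx]; exact M.mul_mem_left _ hμM)
    have hza : z * a ∈ M := aux z (by rw [← hz]; exact M.mul_mem_left _ hμM)
    have h3 : z * (μ + a * ν) * a ∈ M := by
      have e : z * (μ + a * ν) * a = z * a - z * (ν * a) + (z * a) * (ν * a) := by
        rw [hν]; noncomm_ring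
      rw [e]
      exact M.add_mem (M.sub_mem hza (M.mul_mem_left _ hνa)) (M.mul_mem_left _ hνa)
    rw [← hz] at h3
    have h4 : a ∈ M := by
      have e : a = (1 - x) * μ * a + (1 - x) * (ν * a) + x * a := by rw [hν]; noncomm_ring
      rw [e]
      exact M.add_mem (M.add_mem h3 (M.mul_mem_left _ hνa)) hxa
    exact hma (M.mul_mem_left _ h4)
  refine ⟨M.zero_mem, fun x hx y hy => M.add_mem hx hy, fun a x hx => M.mul_mem_left a hx,
    fun a x hx => hr a x hx, h1, ?_⟩
  intro x hx
  obtain ⟨b, hb⟩ := hinv x hx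
  have hbM : b ∉ M := by
    intro hbM
    apply h1
    have := M.sub_mem (hr x b hbM) hb
    simpa using this
  obtain ⟨b', hb'⟩ := hinv b hbM
  refine ⟨b, ?_, hb⟩
  have e : x * b - 1 = -((b' * b - 1) * (x * b)) + b' * (b * x - 1) * b + (b' * b - 1) := by
    noncomm_ring
  rw [SetLike.mem_coe, e]
  refine M.add_mem (M.add_mem (M.neg_mem (hr _ _ hb')) (hr _ _ (M.mul_mem_left _ hb))) hb'

theorem exists_res_of_left (hL : LD A) (H : Ideal A) (h1 : (1 : A) ∉ H) :
    ∃ M : Set A, IsRes A M ∧ (H : Set A) ⊆ M := by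
  obtain ⟨M, hM, hHM⟩ := Ideal.exists_le_maximal H (fun h => h1 (by rw [h]; trivial))
  exact ⟨M, isRes_of_isMaximal hL M hM, hHM⟩

theorem LD_op (hR : RD A) : LD Aᵐᵒᵖ := by
  intro a b
  obtain ⟨x, y, z, h1, h2⟩ := hR a.unop b.unop
  refine ⟨MulOpposite.op x, MulOpposite.op y, MulOpposite.op z, ?_, ?_⟩
  · apply MulOpposite.unop_injective
    simpa using h1
  · apply MulOpposite.unop_injective
    simpa using h2

theorem RD_op (hL : LD A) : RD Aᵐᵒᵖ := by
  intro a b
  obtain ⟨x, y, z, h1, h2⟩ := hL a.unop b.unop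
  refine ⟨MulOpposite.op x, MulOpposite.op y, MulOpposite.op z, ?_, ?_⟩
  · apply MulOpposite.unop_injective
    simpa using h1
  · apply MulOpposite.unop_injective
    simpa using h2

theorem isRes_unop {M : Set Aᵐᵒᵖ} (h : IsRes Aᵐᵒᵖ M) : IsRes A (MulOpposite.op ⁻¹' M) where
  zero := h.zero
  add := fun x hx y hy => h.add _ hx _ hy
  mul_left := fun a x hx => by
    have := h.mul_right (MulOpposite.op a) _ hx
    simpa using this
  mul_right := fun a x hx => by
    have := h.mul_left (MulOpposite.op a) _ hx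
    simpa using this
  one := h.one
  inv := fun x hx => by
    obtain ⟨y, h1, h2⟩ := h.inv _ hx
    exact ⟨y.unop, by simpa using h2, by simpa using h1⟩

theorem exists_res_of_right (hR : RD A) (H : Submodule Aᵐᵒᵖ A) (h1 : (1 : A) ∉ H) :
    ∃ M : Set A, IsRes A M ∧ (H : Set A) ⊆ M := by
  let H' : Ideal Aᵐᵒᵖ :=
    { carrier := {x | x.unop ∈ H}
      zero_mem' := H.zero_mem
      add_mem' := fun {x y} hx hy => H.add_mem hx hy
      smul_mem' := fun c x hx => by
        have := H.smul_mem c hx
        simpa using this }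
  obtain ⟨M, hM, hHM⟩ := exists_res_of_left (LD_op hR) H' (fun h => h1 h)
  refine ⟨_, isRes_unop hM, ?_⟩
  intro x hx
  exact hHM (show MulOpposite.op x ∈ H' from hx)

end basics

section divring
variable {A : Type u} [Ring A] [IsDomain A]

open OreLocalization in
theorem exists_divisionRing (hL : LD A) :
    ∃ (D : Type u) (_ : DivisionRing D) (ι : A →+* D), Function.Injective ι := by
  classical
  have hore : Nonempty (OreSet (nonZeroDivisors A)) := by
    rw [nonempty_oreSet_iff_of_noZeroDivisors]
    intro r s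
    have hs : (s : A) ≠ 0 := nonZeroDivisors.coe_ne_zero s
    obtain ⟨x, y, z, h1, h2⟩ := hL r s
    by_cases hx : x = 0
    · subst hx
      have hz : z ≠ 0 := by
        rintro rfl
        apply hs
        simp at h2
      exact ⟨1, ⟨z, mem_nonZeroDivisors_of_ne_zero hz⟩, by simpa using h2.symm⟩
    · exact ⟨y, ⟨x, mem_nonZeroDivisors_of_ne_zero hx⟩, by simpa using h1⟩
  obtain ⟨hore⟩ := hore
  let _ := hore
  refine ⟨OreLocalization (nonZeroDivisors A) A, inferInstance,
    OreLocalization.numeratorRingHom, ?_⟩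
  exact numeratorHom_inj (fun x hx => hx.1)

end divring

section final

theorem projective_span {R : Type*} {N : Type*} [Ring R] [AddCommGroup N] [Module R N] {n : ℕ}
    (a : Fin n → N) (E : Fin n → Fin n → R) (h1 : ∀ i, ∑ k, E i k • a k = a i)
    (h2 : ∀ x : Fin n → R, ∑ i, x i • a i = 0 → ∀ k, ∑ i, x i * E i k = 0) :
    Module.Projective R (Submodule.span R (Set.range a)) := by
  let f₀ : (Fin n → R) →ₗ[R] N := Fintype.linearCombination R a
  have hf₀ : LinearMap.range f₀ = Submodule.span R (Set.range a) :=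
    Fintype.range_linearCombination R a
  rw [← hf₀]
  let f : (Fin n → R) →ₗ[R] LinearMap.range f₀ := f₀.rangeRestrict
  have hf : Function.Surjective f := f₀.surjective_rangeRestrict
  let φ : (Fin n → R) →ₗ[R] (Fin n → R) :=
    { toFun := fun x k => ∑ i, x i * E i k
      map_add' := by
        intro x y; ext k; simp [add_mul, Finset.sum_add_distrib]
      map_smul' := by
        intro r x; ext k; simp [Finset.mul_sum, mul_assoc] }
  have hker : LinearMap.ker f ≤ LinearMap.ker φ := by
    intro x hx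
    rw [LinearMap.mem_ker] at hx ⊢
    have hx' : f₀ x = 0 := by
      have := congrArg Subtype.val hx
      simpa [f] using this
    ext k
    exact h2 x (by simpa [f₀, Fintype.linearCombination_apply] using hx') k
  let g : LinearMap.range f₀ →ₗ[R] (Fin n → R) :=
    ((LinearMap.ker f).liftQ φ hker).comp (f.quotKerEquivOfSurjective hf).symm.toLinearMap
  have hg : ∀ x, g (f x) = φ x := by
    intro x
    have : (f.quotKerEquivOfSurjective hf).symm (f x) = (LinearMap.ker f).mkQ x := by
      rw [LinearEquiv.symm_apply_eq]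
      simp
    simp [g, this]
  refine Module.Projective.of_split g f ?_
  ext v
  obtain ⟨x, rfl⟩ := hf v
  simp only [LinearMap.comp_apply, LinearMap.id_apply, hg]
  have : f₀ (φ x) = f₀ x := by
    simp only [f₀, Fintype.linearCombination_apply]
    have : ∀ k, φ x k • a k = ∑ i, (x i * E i k) • a k := by
      intro k
      simp only [φ, LinearMap.coe_mk, AddHom.coe_mk, Finset.sum_smul]
    simp only [this]
    rw [Finset.sum_comm]
    refine Finset.sum_congr rfl fun i _ => ?_
    rw [← h1 i, Finset.smul_sum]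
    simp only [mul_smul]
  simpa [f] using this

variable {A : Type u} [Ring A]

theorem LD_of_lattice [IsDomain A]
    (hl : ∀ a b c : Submodule A A, a ⊓ (b ⊔ c) = (a ⊓ b) ⊔ (a ⊓ c)) : LD A := by
  intro a b
  by_cases hab : a + b = 0
  · refine ⟨1, -1, 0, ?_, by simp⟩
    have : a = -b := eq_neg_of_add_eq_zero_left hab
    rw [this]; simp
  · have hmem : a + b ∈ Submodule.span A {a + b} ⊓ (Submodule.span A {a} ⊔ Submodule.span A {b}) := by
      refine ⟨Submodule.mem_span_singleton_self _, ?_⟩
      exact Submodule.add_mem_sup (Submodule.mem_span_singleton_self _)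
        (Submodule.mem_span_singleton_self _)
    rw [hl] at hmem
    obtain ⟨u, hu, v, hv, huv⟩ := Submodule.mem_sup.1 hmem
    obtain ⟨x', hx'⟩ := Submodule.mem_span_singleton.1 hu.1
    obtain ⟨c, hc⟩ := Submodule.mem_span_singleton.1 hu.2
    obtain ⟨y', hy'⟩ := Submodule.mem_span_singleton.1 hv.1
    obtain ⟨d, hd⟩ := Submodule.mem_span_singleton.1 hv.2
    simp only [smul_eq_mul] at hx' hc hy' hd
    have hone : x' + y' = 1 := by
      have : (x' + y' - 1) * (a + b) = 0 := by
        rw [sub_mul, add_mul, hx', hy', huv]; simp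
      rcases mul_eq_zero.1 this with h | h
      · exact sub_eq_zero.1 h
      · exact absurd h hab
    refine ⟨y', d - y', c - x', ?_, ?_⟩
    · have : y' * (a + b) = d * b := by rw [hy', hd]
      rw [sub_mul, ← this]; noncomm_ring
    · have e : 1 - y' = x' := by rw [← hone]; abel
      have : x' * (a + b) = c * a := by rw [hx', hc]
      rw [e, sub_mul, ← this]; noncomm_ring

theorem RD_of_lattice [IsDomain A]
    (hr : ∀ a b c : Submodule Aᵐᵒᵖ A, a ⊓ (b ⊔ c) = (a ⊓ b) ⊔ (a ⊓ c)) : RD A := by
  intro a b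
  by_cases hab : a + b = 0
  · refine ⟨1, -1, 0, ?_, by simp⟩
    have : a = -b := eq_neg_of_add_eq_zero_left hab
    rw [this]; simp
  · have hmem : a + b ∈ Submodule.span Aᵐᵒᵖ {a + b} ⊓
        (Submodule.span Aᵐᵒᵖ {a} ⊔ Submodule.span Aᵐᵒᵖ {b}) := by
      refine ⟨Submodule.mem_span_singleton_self _, ?_⟩
      exact Submodule.add_mem_sup (Submodule.mem_span_singleton_self _)
        (Submodule.mem_span_singleton_self _)
    rw [hr] at hmem
    obtain ⟨u, hu, v, hv, huv⟩ := Submodule.mem_sup.1 hmem
    obtain ⟨x', hx'⟩ := Submodule.mem_span_singleton.1 hu.1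
    obtain ⟨c, hc⟩ := Submodule.mem_span_singleton.1 hu.2
    obtain ⟨y', hy'⟩ := Submodule.mem_span_singleton.1 hv.1
    obtain ⟨d, hd⟩ := Submodule.mem_span_singleton.1 hv.2
    simp only [MulOpposite.smul_eq_mul_unop] at hx' hc hy' hd
    have hone : x'.unop + y'.unop = 1 := by
      have : (a + b) * (x'.unop + y'.unop - 1) = 0 := by
        rw [mul_sub, mul_add, hx', hy', huv]; simp
      rcases mul_eq_zero.1 this with h | h
      · exact absurd h hab
      · exact sub_eq_zero.1 h
    refine ⟨y'.unop, d.unop - y'.unop, c.unop - x'.unop, ?_, ?_⟩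
    · have : (a + b) * y'.unop = b * d.unop := by rw [hy', hd]
      rw [mul_sub, ← this]; noncomm_ring
    · have e : 1 - y'.unop = x'.unop := by rw [← hone]; abel
      have : (a + b) * x'.unop = a * c.unop := by rw [hx', hc]
      rw [e, mul_sub, ← this]; noncomm_ring

theorem isMaximal_of_isRes {M : Set A} (hM : IsRes A M) :
    ∃ M' : Ideal A, (M' : Set A) = M ∧ M'.IsMaximal := by
  let M' : Ideal A :=
    { carrier := M
      zero_mem' := hM.zero
      add_mem' := fun {x y} hx hy => hM.add x hx y hy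
      smul_mem' := fun c x hx => hM.mul_left c x hx }
  refine ⟨M', rfl, ?_⟩
  rw [Ideal.isMaximal_iff]
  refine ⟨hM.one, ?_⟩
  intro K x hK hx hxK
  obtain ⟨y, -, hy⟩ := hM.inv x hx
  have h1 := K.sub_mem (K.mul_mem_left y hxK) (hK (show y * x - 1 ∈ M' from hy))
  simpa using h1


end final

end Pool.Agent.H8.Dist
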