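import Mathlib
import Pool.Agent.H8.Dist.Basic

/-!
# The local-global step

`A` is a left and right distributive domain inside a division ring `D`, `J` is a right
`A`-submodule of `D`.  `LJ` is the left ideal of all `x` in `A` with `x J` inside `A`; `InZ M` says
that `1` is not in the localization of `J` at the maximal ideal `M`.
-/

universe u

namespace Pool.Agent.H8.Dist

section core
variable {A : Type u} [Ring A] {D : Type u} [DivisionRing D] (ι : A →+* D)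

/-- the left ideal of all `x ∈ A` with `x J ⊆ A` -/
def LJ (J : AddSubgroup D) : Ideal A where
  carrier := {x | ∀ j ∈ J, ∃ m, ι x * j = ι m}
  zero_mem' := fun j _ => ⟨0, by simp⟩
  add_mem' := by
    intro x y hx hy j hj
    obtain ⟨m, hm⟩ := hx j hj
    obtain ⟨m', hm'⟩ := hy j hj
    exact ⟨m + m', by rw [map_add, add_mul, hm, hm', map_add]⟩
  smul_mem' := by
    intro c x hx j hj
    obtain ⟨m, hm⟩ := hx j hj
    exact ⟨c * m, by rw [smul_eq_mul, map_mul, mul_assoc, hm, map_mul]⟩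

/-- `M` is a zero of `J`: `J ∩ A ⊆ M` -/
def InZ (J : AddSubgroup D) (M : Set A) : Prop := ∀ t, ι t ∈ J → t ∈ M

theorem not_InZ {J : AddSubgroup D} {M : Set A} (h : ¬ InZ ι J M) : ∃ t, ι t ∈ J ∧ t ∉ M := by
  unfold InZ at h
  push Not at h
  exact h

theorem exists_S (hL : LD A) (J : AddSubgroup D)
    (H1 : ∀ M, IsRes A M → InZ ι J M → ∃ τ ∉ M, τ ∈ LJ ι J) :
    ∃ l ∈ LJ ι J, ∀ M, IsRes A M → InZ ι J M → l - 1 ∈ M := by
  let R : Ideal A :=
    { carrier := {x | ∀ M, IsRes A M → InZ ι J M → x ∈ M}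
      zero_mem' := fun M hM _ => hM.zero
      add_mem' := fun {x y} hx hy M hM hZ => hM.add _ (hx M hM hZ) _ (hy M hM hZ)
      smul_mem' := fun c x hx M hM hZ => hM.mul_left _ _ (hx M hM hZ) }
  have h1 : (1 : A) ∈ LJ ι J ⊔ R := by
    by_contra h1
    obtain ⟨N, hN, hsub⟩ := exists_res_of_left hL _ h1
    by_cases hZ : InZ ι J N
    · obtain ⟨τ, hτ, hτL⟩ := H1 N hN hZ
      exact hτ (hsub ((le_sup_left : LJ ι J ≤ LJ ι J ⊔ R) hτL))
    · obtain ⟨t, htJ, htN⟩ := not_InZ ι hZ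
      apply htN
      apply hsub
      apply (le_sup_right : R ≤ LJ ι J ⊔ R)
      intro M hM hZM
      exact hZM t htJ
  obtain ⟨l, hl, r, hr, hlr⟩ := Submodule.mem_sup.1 h1
  refine ⟨l, hl, fun M hM hZ => ?_⟩
  have : l - 1 = -r := by rw [← hlr]; abel
  rw [this]
  exact hM.neg (hr M hM hZ)

theorem IsRes.eq_of_subset {M N : Set A} (hM : IsRes A M) (hN : IsRes A N) (h : M ⊆ N) :
    M = N := by
  apply Set.Subset.antisymm h
  intro x hx
  by_contra hxM
  obtain ⟨y, hy, -⟩ := hM.inv x hxM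
  apply hN.one
  have := hN.sub (hN.mul_right y _ hx) (h hy)
  simpa using this

theorem sep (J : AddSubgroup D) {N : Set A} (hN : IsRes A N) (hNZ : ¬ InZ ι J N)
    (F : Finset (Set A)) (hF : ∀ N' ∈ F, IsRes A N') (hNF : N ∉ F) :
    ∃ e : A, e - 1 ∈ N ∧ (∀ M, IsRes A M → InZ ι J M → e ∈ M) ∧ ∀ N' ∈ F, e ∈ N' := by
  classical
  have key : ∃ e : A, e ∉ N ∧ (∀ M, IsRes A M → InZ ι J M → e ∈ M) ∧ ∀ N' ∈ F, e ∈ N' := by
    induction F using Finset.induction_on with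
    | empty =>
      obtain ⟨t, htJ, htN⟩ := not_InZ ι hNZ
      exact ⟨t, htN, fun M _ hZ => hZ t htJ, by simp⟩
    | insert N' F hN'F ih =>
      obtain ⟨e, he1, he2, he3⟩ := ih (fun N' h => hF N' (Finset.mem_insert_of_mem h))
        (fun h => hNF (Finset.mem_insert_of_mem h))
      have hN' := hF N' (Finset.mem_insert_self _ _)
      have hne : ¬ N' ⊆ N := by
        intro h
        apply hNF
        rw [← hN'.eq_of_subset hN h]
        exact Finset.mem_insert_self _ _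
      obtain ⟨x, hx, hxN⟩ := Set.not_subset.1 hne
      refine ⟨e * x, hN.prime he1 hxN, fun M hM hZ => hM.mul_right _ _ (he2 M hM hZ), ?_⟩
      intro N'' hN''
      rcases Finset.mem_insert.1 hN'' with rfl | h
      · exact hN'.mul_left _ _ hx
      · exact (hF N'' hN'').mul_right _ _ (he3 N'' h)
  obtain ⟨e, he1, he2, he3⟩ := key
  obtain ⟨y, -, hy⟩ := hN.inv e he1
  exact ⟨y * e, hy, fun M hM hZ => hM.mul_left _ _ (he2 M hM hZ),
    fun N' h => (hF N' h).mul_left _ _ (he3 N' h)⟩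

theorem exists_l (hL : LD A) (J : AddSubgroup D)
    (H1 : ∀ M, IsRes A M → InZ ι J M → ∃ τ ∉ M, τ ∈ LJ ι J)
    (H2 : ∀ N, IsRes A N → ¬ InZ ι J N → ∃ g ∈ LJ ι J, ∃ j ∈ J, ∃ m ∉ N, ι g * j = ι m)
    (F : Finset (Set A)) (hF : ∀ N ∈ F, IsRes A N ∧ ¬ InZ ι J N) :
    ∃ l ∈ LJ ι J, (∀ M, IsRes A M → InZ ι J M → l - 1 ∈ M) ∧
      ∀ N ∈ F, ∃ j ∈ J, ∃ m ∉ N, ι l * j = ι m := by
  classical
  induction F using Finset.induction_on with
  | empty =>
    obtain ⟨l, h1, h2⟩ := exists_S ι hL J H1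
    exact ⟨l, h1, h2, by simp⟩
  | insert N F hNF ih =>
    obtain ⟨l, hl1, hl2, hl3⟩ := ih (fun N h => hF N (Finset.mem_insert_of_mem h))
    obtain ⟨hN, hNZ⟩ := hF N (Finset.mem_insert_self _ _)
    by_cases hlN : ∃ j ∈ J, ∃ m ∉ N, ι l * j = ι m
    · refine ⟨l, hl1, hl2, ?_⟩
      intro N' hN'
      rcases Finset.mem_insert.1 hN' with h | h
      · rw [h]; exact hlN
      · exact hl3 N' h
    · obtain ⟨g, hg, j, hj, m, hm, hgm⟩ := H2 N hN hNZ
      obtain ⟨e, he1, he2, he3⟩ := sep ι J hN hNZ F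
        (fun N' h => (hF N' (Finset.mem_insert_of_mem h)).1) hNF
      refine ⟨l + e * g, (LJ ι J).add_mem hl1 ((LJ ι J).mul_mem_left e hg), ?_, ?_⟩
      · intro M hM hZ
        have : l + e * g - 1 = (l - 1) + e * g := by abel
        rw [this]
        exact hM.add _ (hl2 M hM hZ) _ (hM.mul_right _ _ (he2 M hM hZ))
      · intro N' hN'
        rcases Finset.mem_insert.1 hN' with h | h
        · subst h
          obtain ⟨m', hm'⟩ := hl1 j hj
          have hm'N : m' ∈ N' := by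
            by_contra hh
            exact hlN ⟨j, hj, m', hh, hm'⟩
          refine ⟨j, hj, m' + e * m, ?_, by
            rw [map_add, add_mul, hm', map_mul, mul_assoc, hgm, map_add, map_mul]⟩
          intro hh
          apply hm
          have : m = (m' + e * m) - m' - (e - 1) * m := by noncomm_ring
          rw [this]
          exact hN.sub (hN.sub hh hm'N) (hN.mul_right _ _ he1)
        · obtain ⟨j', hj', m', hm', hlm'⟩ := hl3 N' h
          obtain ⟨m'', hm''⟩ := hg j' hj'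
          have hN'res := (hF N' hN').1
          refine ⟨j', hj', m' + e * m'', ?_, by
            rw [map_add, add_mul, hlm', map_mul, mul_assoc, hm'', map_add, map_mul]⟩
          intro hh
          apply hm'
          have : m' = (m' + e * m'') - e * m'' := by abel
          rw [this]
          exact hN'res.sub hh (hN'res.mul_right _ _ (he3 N' h))

/-- the right ideal `A ∩ l J V_M` of `A` -/
def sat {M : Set A} (hR : RD A) (hM : IsRes A M) (J : AddSubgroup D)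
    (hJ : ∀ j ∈ J, ∀ c, j * ι c ∈ J) (l : A) : Submodule Aᵐᵒᵖ A where
  carrier := {x | ∃ s, s ∉ M ∧ ∃ j ∈ J, ι (x * s) = ι l * j}
  zero_mem' := ⟨1, hM.one, 0, J.zero_mem, by simp⟩
  add_mem' := by
    rintro x y ⟨s, hs, j, hj, hx⟩ ⟨s', hs', j', hj', hy⟩
    obtain ⟨t', b', ht', hb'⟩ := ore_right hR hM s s' hs'
    refine ⟨s * t', hM.prime hs ht', j * ι t' + j' * ι b',
      J.add_mem (hJ _ hj _) (hJ _ hj' _), ?_⟩
    have : (x + y) * (s * t') = x * s * t' + y * s' * b' := by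
      rw [add_mul, mul_assoc y, ← hb', mul_assoc x]
    rw [this, map_add, map_mul _ (x * s), map_mul _ (y * s'), hx, hy, mul_add, mul_assoc,
      mul_assoc]
  smul_mem' := by
    rintro c x ⟨s, hs, j, hj, hx⟩
    obtain ⟨t', b', ht', hb'⟩ := ore_right hR hM c.unop s hs
    refine ⟨t', ht', j * ι b', hJ _ hj _, ?_⟩
    have : c • x = x * c.unop := rfl
    rw [this, mul_assoc, hb', ← mul_assoc, map_mul, hx, mul_assoc]

theorem mem_sat {M : Set A} (hR : RD A) (hM : IsRes A M) (J : AddSubgroup D)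
    (hJ : ∀ j ∈ J, ∀ c, j * ι c ∈ J) (l x : A) :
    x ∈ sat ι hR hM J hJ l ↔ ∃ s, s ∉ M ∧ ∃ j ∈ J, ι (x * s) = ι l * j := Iff.rfl

theorem mem_sat_of_mul {M : Set A} (hR : RD A) (hM : IsRes A M) (J : AddSubgroup D)
    (hJ : ∀ j ∈ J, ∀ c, j * ι c ∈ J) (l x s : A) (hs : s ∉ M)
    (h : x * s ∈ sat ι hR hM J hJ l) : x ∈ sat ι hR hM J hJ l := by
  obtain ⟨s', hs', j, hj, hx⟩ := h
  exact ⟨s * s', hM.prime hs hs', j, hj, by rw [← mul_assoc]; exact hx⟩

theorem mul_mem_sat {M : Set A} (hR : RD A) (hM : IsRes A M) (J : AddSubgroup D)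
    (hJ : ∀ j ∈ J, ∀ c, j * ι c ∈ J) (l x c : A)
    (h : x ∈ sat ι hR hM J hJ l) : x * c ∈ sat ι hR hM J hJ l :=
  (sat ι hR hM J hJ l).smul_mem (MulOpposite.op c) h

/-- the localizations of right ideals form a chain -/
theorem sat_total {M : Set A} (hR : RD A) (hM : IsRes A M) (J : AddSubgroup D)
    (hJ : ∀ j ∈ J, ∀ c, j * ι c ∈ J) (l l' : A) :
    sat ι hR hM J hJ l ≤ sat ι hR hM J hJ l' ∨ sat ι hR hM J hJ l' ≤ sat ι hR hM J hJ l := by
  by_cases h : sat ι hR hM J hJ l ≤ sat ι hR hM J hJ l'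
  · exact Or.inl h
  · right
    obtain ⟨u, hu, hu'⟩ := SetLike.not_le_iff_exists.1 h
    intro v hv
    obtain ⟨x, y, z, h1, h2⟩ := hR u v
    by_cases hx : x ∈ M
    · have h1x : 1 - x ∉ M := by
        intro hh
        apply hM.one
        have := hM.add _ hh _ hx
        simpa using this
      refine mem_sat_of_mul ι hR hM J hJ l v (1 - x) h1x ?_
      rw [h2]
      exact mul_mem_sat ι hR hM J hJ l u z hu
    · exfalso
      apply hu'
      refine mem_sat_of_mul ι hR hM J hJ l' u x hx ?_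
      rw [h1]
      exact mul_mem_sat ι hR hM J hJ l' v y hv

/-- `N` is an obstruction for the pair `l`, `M` -/
def Bad (J : AddSubgroup D) (M : Set A) (l : A) (N : Set A) : Prop :=
  l ∈ N ∧ ∀ x s : A, s ∉ M → ∀ j ∈ J, ι (x * s) = ι l * j → x ∈ N

theorem step_i (hR : RD A) (J : AddSubgroup D)
    (hJ : ∀ j ∈ J, ∀ c, j * ι c ∈ J) (l : A) (hl : l ∈ LJ ι J) (hl0 : ι l ≠ 0)
    (good : ∀ M, IsRes A M → InZ ι J M → ∀ N, IsRes A N → ¬ Bad ι J M l N) :
    ∃ ψ ∈ LJ ι J, ι (1 - ψ) ∈ J := by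
  classical
  -- the right ideal `A ∩ ⋂ l J V_M`
  let H : Submodule Aᵐᵒᵖ A :=
    { carrier := {x | ∀ M, ∀ hM : IsRes A M, InZ ι J M → x ∈ sat ι hR hM J hJ l}
      zero_mem' := fun M hM _ => (sat ι hR hM J hJ l).zero_mem
      add_mem' := fun {x y} hx hy M hM hZ =>
        (sat ι hR hM J hJ l).add_mem (hx M hM hZ) (hy M hM hZ)
      smul_mem' := fun c x hx M hM hZ => (sat ι hR hM J hJ l).smul_mem c (hx M hM hZ) }
  have h1 : (1 : A) ∈ Submodule.span Aᵐᵒᵖ {l} ⊔ H := by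
    by_contra h1
    obtain ⟨N, hN, hsub⟩ := exists_res_of_right hR _ h1
    have hlN : l ∈ N := hsub ((le_sup_left : _ ≤ Submodule.span Aᵐᵒᵖ {l} ⊔ H)
      (Submodule.mem_span_singleton_self l))
    -- quasi-compactness
    let T : Submodule Aᵐᵒᵖ A :=
      { carrier := {u | ∃ x, x ∉ N ∧ ∀ M, ∀ hM : IsRes A M, InZ ι J M → u ∉ M →
          x ∈ sat ι hR hM J hJ l}
        zero_mem' := ⟨1, hN.one, fun M hM _ h => absurd hM.zero h⟩
        add_mem' := by
          rintro u u' ⟨x, hx, hu⟩ ⟨x', hx', hu'⟩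
          obtain ⟨t', b', ht', hb'⟩ := ore_right hR hN x x' hx'
          refine ⟨x * t', hN.prime hx ht', ?_⟩
          intro M hM hZ huu
          by_cases h : u ∈ M
          · have h' : u' ∉ M := fun h' => huu (hM.add _ h _ h')
            rw [hb']
            exact mul_mem_sat ι hR hM J hJ l x' b' (hu' M hM hZ h')
          · exact mul_mem_sat ι hR hM J hJ l x t' (hu M hM hZ h)
        smul_mem' := by
          rintro c u ⟨x, hx, hu⟩
          refine ⟨x, hx, ?_⟩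
          intro M hM hZ huM
          exact hu M hM hZ (fun h => huM (hM.mul_right _ _ h)) }
    have hT : (1 : A) ∈ T := by
      by_contra hT
      obtain ⟨M, hM, hTM⟩ := exists_res_of_right hR T hT
      have hMZ : InZ ι J M := by
        intro t ht
        apply hTM
        exact ⟨1, hN.one, fun M' hM' hZ' h => absurd (hZ' t ht) h⟩
      have hgood := good M hM hMZ N hN
      unfold Bad at hgood
      push Not at hgood
      obtain ⟨x, s, hs, j, hj, hxs, hxN⟩ := hgood hlN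
      apply hs
      apply hTM
      exact ⟨x, hxN, fun M' hM' hZ' h => ⟨s, h, j, hj, hxs⟩⟩
    obtain ⟨x, hxN, hx⟩ := hT
    apply hxN
    apply hsub
    apply (le_sup_right : H ≤ Submodule.span Aᵐᵒᵖ {l} ⊔ H)
    intro M hM hZ
    exact hx M hM hZ hM.one
  obtain ⟨la, hla, h, hh, hsum⟩ := Submodule.mem_sup.1 h1
  obtain ⟨a', ha'⟩ := Submodule.mem_span_singleton.1 hla
  obtain ⟨a, rfl⟩ : ∃ a, a' = MulOpposite.op a := ⟨a'.unop, rfl⟩
  have hla' : la = l * a := ha'.symm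
  subst hla'
  -- `1 = l a + h`
  obtain ⟨z, hz⟩ : ∃ z : D, z = (ι l)⁻¹ * ι h := ⟨_, rfl⟩
  have hlz : ι l * z = ι h := by rw [hz, mul_inv_cancel_left₀ hl0]
  have e1 : ι l * (ι a + z) = 1 := by
    rw [mul_add, hlz, ← map_mul, ← map_add, hsum, map_one]
  have e2 : (ι a + z) * ι l = 1 := by
    have : ι a + z = (ι l)⁻¹ := by
      rw [eq_inv_of_mul_eq_one_right e1]
    rw [this, inv_mul_cancel₀ hl0]
  have e3 : ι (1 - a * l) = z * ι l := by
    rw [map_sub, map_one, map_mul, ← e2]; noncomm_ring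
  refine ⟨a * l, (LJ ι J).mul_mem_left a hl, ?_⟩
  let Q : Submodule Aᵐᵒᵖ A :=
    { carrier := {s | ι ((1 - a * l) * s) ∈ J}
      zero_mem' := by simp [J.zero_mem]
      add_mem' := by
        intro s s' hs hs'
        have := J.add_mem hs hs'
        rw [← map_add, ← mul_add] at this
        exact this
      smul_mem' := by
        intro c s hs
        have := hJ _ hs c.unop
        rw [← map_mul, mul_assoc] at this
        exact this }
  have hQ : (1 : A) ∈ Q := by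
    by_contra hQ
    obtain ⟨M, hM, hQM⟩ := exists_res_of_right hR Q hQ
    by_cases hZ : InZ ι J M
    · obtain ⟨s, hs, j, hj, hsj⟩ := hh M hM hZ
      obtain ⟨t', b', ht', hb'⟩ := ore_right hR hM l s hs
      apply ht'
      apply hQM
      show ι ((1 - a * l) * t') ∈ J
      have hzs : z * ι s = j := by
        rw [hz, mul_assoc, ← map_mul, hsj, inv_mul_cancel_left₀ hl0]
      rw [map_mul, e3, mul_assoc, ← map_mul, hb', map_mul, ← mul_assoc, hzs]
      exact hJ _ hj _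
    · obtain ⟨t, htJ, htM⟩ := not_InZ ι hZ
      obtain ⟨t', b', ht', hb'⟩ := ore_right hR hM (1 - a * l) t htM
      apply ht'
      apply hQM
      show ι ((1 - a * l) * t') ∈ J
      rw [hb', map_mul]
      exact hJ _ htJ _
  have : ι ((1 - a * l) * 1) ∈ J := hQ
  rwa [mul_one] at this

theorem single_point {M : Set A} (hR : RD A) (hM : IsRes A M) (J : AddSubgroup D)
    (hJ : ∀ j ∈ J, ∀ c, j * ι c ∈ J) :
    ∃ F : Finset (Set A), (∀ N ∈ F, IsRes A N ∧ ¬ InZ ι J N) ∧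
      ∀ l ∈ LJ ι J, (∀ M, IsRes A M → InZ ι J M → l - 1 ∈ M) →
        (∀ N ∈ F, ∃ j ∈ J, ∃ m ∉ N, ι l * j = ι m) → ∀ N', IsRes A N' → ¬ Bad ι J M l N' := by
  classical
  -- `l` admissible and bad
  by_cases hB : ∃ l₀, (∀ M, IsRes A M → InZ ι J M → l₀ - 1 ∈ M) ∧
      ∃ N, IsRes A N ∧ Bad ι J M l₀ N
  swap
  · refine ⟨∅, by simp, ?_⟩
    intro l _ hl1 _ N' hN' hbad
    exact hB ⟨l, hl1, N', hN', hbad⟩
  obtain ⟨l₀, hl₀1, hl₀B⟩ := hB
  have notZ : ∀ l, (∀ M, IsRes A M → InZ ι J M → l - 1 ∈ M) → ∀ N, IsRes A N → l ∈ N →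
      ¬ InZ ι J N := by
    intro l hl N hN hlN hZ
    apply hN.one
    have := hN.sub hlN (hl N hN hZ)
    simpa using this
  let U : Submodule Aᵐᵒᵖ A :=
    { carrier := {h | ∃ l, (∀ M, IsRes A M → InZ ι J M → l - 1 ∈ M) ∧
        (∃ N, IsRes A N ∧ Bad ι J M l N) ∧ h ∈ sat ι hR hM J hJ l}
      zero_mem' := ⟨l₀, hl₀1, hl₀B, (sat ι hR hM J hJ l₀).zero_mem⟩
      add_mem' := by
        rintro x y ⟨l, hl1, hl2, hl3⟩ ⟨l', hl1', hl2', hl3'⟩
        rcases sat_total ι hR hM J hJ l l' with h | h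
        · exact ⟨l', hl1', hl2', (sat ι hR hM J hJ l').add_mem (h hl3) hl3'⟩
        · exact ⟨l, hl1, hl2, (sat ι hR hM J hJ l).add_mem hl3 (h hl3')⟩
      smul_mem' := by
        rintro c x ⟨l, hl1, hl2, hl3⟩
        exact ⟨l, hl1, hl2, (sat ι hR hM J hJ l).smul_mem c hl3⟩ }
  have h1 : (1 : A) ∉ Submodule.span Aᵐᵒᵖ {l₀} ⊔ U := by
    intro h1
    obtain ⟨la, hla, h, hh, hsum⟩ := Submodule.mem_sup.1 h1
    obtain ⟨a', ha'⟩ := Submodule.mem_span_singleton.1 hla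
    have hla' : la = l₀ * a'.unop := ha'.symm
    obtain ⟨l, hl1, hl2, hl3⟩ := hh
    -- the larger one
    obtain ⟨l', hl'1, ⟨N, hN, hlN, hbad⟩, hle, hmem⟩ : ∃ l',
        (∀ M, IsRes A M → InZ ι J M → l' - 1 ∈ M) ∧ (∃ N, IsRes A N ∧ Bad ι J M l' N) ∧
        sat ι hR hM J hJ l₀ ≤ sat ι hR hM J hJ l' ∧ h ∈ sat ι hR hM J hJ l' := by
      rcases sat_total ι hR hM J hJ l l₀ with h | h
      · exact ⟨l₀, hl₀1, hl₀B, le_rfl, h hl3⟩
      · exact ⟨l, hl1, hl2, h, hl3⟩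
    have hNZ := notZ l' hl'1 N hN hlN
    have hsatN : ∀ x ∈ sat ι hR hM J hJ l', x ∈ N := by
      rintro x ⟨s, hs, j, hj, hxs⟩
      exact hbad x s hs j hj hxs
    obtain ⟨t, htJ, htN⟩ := not_InZ ι hNZ
    have hl₀N : l₀ ∈ N := by
      by_contra hl₀N
      apply hN.prime hl₀N htN
      apply hsatN
      apply hle
      exact ⟨1, hM.one, ι t, htJ, by rw [mul_one, map_mul]⟩
    apply hN.one
    rw [← hsum, hla']
    exact hN.add _ (hN.mul_right _ _ hl₀N) _ (hsatN h hmem)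
  obtain ⟨N, hN, hsub⟩ := exists_res_of_right hR _ h1
  have hl₀N : l₀ ∈ N := hsub ((le_sup_left : _ ≤ Submodule.span Aᵐᵒᵖ {l₀} ⊔ U)
    (Submodule.mem_span_singleton_self l₀))
  have hNZ := notZ l₀ hl₀1 N hN hl₀N
  refine ⟨{N}, ?_, ?_⟩
  · intro N' hN'
    rw [Finset.mem_singleton] at hN'
    subst hN'
    exact ⟨hN, hNZ⟩
  · intro l hl hl1 hgen N' hN' hbad
    obtain ⟨j, hj, m, hmN, hm⟩ := hgen N (Finset.mem_singleton_self N)
    apply hmN
    apply hsub
    apply (le_sup_right : U ≤ Submodule.span Aᵐᵒᵖ {l₀} ⊔ U)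
    exact ⟨l, hl1, ⟨N', hN', hbad⟩, 1, hM.one, j, hj, by rw [mul_one, hm]⟩

/-- `M` is tame: `V_N V_M ⊆ V_M V_N` for all maximal ideals `N` -/
def Tame (M : Set A) : Prop :=
  ∀ N, IsRes A N → ∀ s, s ∉ M → ∀ t, t ∉ N → ∃ t', t' ∉ N ∧ ∃ s', s' ∉ M ∧ ∃ c,
    t' * s' = s * t * c

theorem tame_good {M : Set A} (hM : IsRes A M) (J : AddSubgroup D)
    (hJ : ∀ j ∈ J, ∀ c, j * ι c ∈ J) (hZ : InZ ι J M) (hT : Tame M) (l : A)
    (hl1 : ∀ M, IsRes A M → InZ ι J M → l - 1 ∈ M) (N : Set A) (hN : IsRes A N) :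
    ¬ Bad ι J M l N := by
  rintro ⟨hlN, hB⟩
  have hNZ : ¬ InZ ι J N := by
    intro hNZ
    apply hN.one
    have := hN.sub hlN (hl1 N hN hNZ)
    simpa using this
  obtain ⟨t, htJ, htN⟩ := not_InZ ι hNZ
  have hlM : l ∉ M := by
    intro hlM
    apply hM.one
    have := hM.sub hlM (hl1 M hM hZ)
    simpa using this
  obtain ⟨t', ht', s', hs', c, hc⟩ := hT N hN l hlM t htN
  exact ht' (hB t' s' hs' (ι t * ι c) (hJ _ htJ _) (by rw [hc, map_mul, map_mul, mul_assoc]))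

theorem PJ (hR : RD A) (hL : LD A) (J : AddSubgroup D)
    (hJ : ∀ j ∈ J, ∀ c, j * ι c ∈ J)
    (H1 : ∀ M, IsRes A M → InZ ι J M → ∃ τ ∉ M, τ ∈ LJ ι J)
    (H2 : ∀ N, IsRes A N → ¬ InZ ι J N → ∃ g ∈ LJ ι J, ∃ j ∈ J, ∃ m ∉ N, ι g * j = ι m)
    (hι : Function.Injective ι)
    (hfin : {M : Set A | IsRes A M ∧ InZ ι J M ∧ ¬ Tame M}.Finite) :
    ∃ ψ ∈ LJ ι J, ι (1 - ψ) ∈ J := by
  classical
  by_cases hne : ∃ M₀, IsRes A M₀ ∧ InZ ι J M₀
  swap
  · refine ⟨0, (LJ ι J).zero_mem, ?_⟩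
    rw [sub_zero]
    let Q : Submodule Aᵐᵒᵖ A :=
      { carrier := {s | ι s ∈ J}
        zero_mem' := by simp [J.zero_mem]
        add_mem' := by
          intro s s' hs hs'
          have := J.add_mem hs hs'
          rw [← map_add] at this
          exact this
        smul_mem' := by
          intro c s hs
          have := hJ _ hs c.unop
          rw [← map_mul] at this
          exact this }
    by_contra hQ
    obtain ⟨M, hM, hQM⟩ := exists_res_of_right hR Q hQ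
    exact hne ⟨M, hM, fun t ht => hQM ht⟩
  obtain ⟨M₀, hM₀, hM₀Z⟩ := hne
  have key : ∀ M : Set A, ∃ F : Finset (Set A), (∀ N ∈ F, IsRes A N ∧ ¬ InZ ι J N) ∧
      (IsRes A M → ∀ l ∈ LJ ι J, (∀ M, IsRes A M → InZ ι J M → l - 1 ∈ M) →
        (∀ N ∈ F, ∃ j ∈ J, ∃ m ∉ N, ι l * j = ι m) → ∀ N', IsRes A N' → ¬ Bad ι J M l N') := by
    intro M
    by_cases hM : IsRes A M
    · obtain ⟨F, h1, h2⟩ := single_point ι hR hM J hJ
      exact ⟨F, h1, fun _ => h2⟩
    · exact ⟨∅, by simp, fun h => absurd h hM⟩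
  choose F hF1 hF2 using key
  obtain ⟨l, hl, hl1, hgen⟩ := exists_l ι hL J H1 H2 (hfin.toFinset.biUnion F) (by
    intro N hN
    rw [Finset.mem_biUnion] at hN
    obtain ⟨M, -, hN⟩ := hN
    exact hF1 M N hN)
  refine step_i ι hR J hJ l hl ?_ ?_
  · intro h0
    have hl0 : l = 0 := hι (by rw [h0, map_zero])
    apply hM₀.one
    have := hM₀.neg (hl1 M₀ hM₀ hM₀Z)
    rw [hl0] at this
    simpa using this
  · intro M hM hZ N hN
    by_cases hT : Tame M
    · exact tame_good ι hM J hJ hZ hT l hl1 N hN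
    · refine hF2 M hM l hl hl1 ?_ N hN
      intro N' hN'
      apply hgen
      rw [Finset.mem_biUnion]
      exact ⟨M, by simpa using ⟨hM, hZ, hT⟩, hN'⟩

end core

end Pool.Agent.H8.Dist
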