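import Mathlib
import Pool.Agent.H8.Dist.Core

/-!
# Finitely generated modules: from the local-global step to dual bases
-/

universe u

namespace Pool.Agent.H8.Dist

section fg
variable {A : Type u} [Ring A] {D : Type u} [DivisionRing D] (ι : A →+* D)

/-- the right `A`-submodule `a⁻¹ (∑ b_i A)` of `D` -/
def JI {n : ℕ} (a : A) (b : Fin n → A) : AddSubgroup D where
  carrier := {d | ∃ c : Fin n → A, ι a * d = ι (∑ i, b i * c i)}
  zero_mem' := ⟨fun _ => 0, by simp⟩
  add_mem' := by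
    rintro x y ⟨c, hc⟩ ⟨c', hc'⟩
    refine ⟨fun i => c i + c' i, ?_⟩
    rw [mul_add, hc, hc', ← map_add, ← Finset.sum_add_distrib]
    simp only [mul_add]
  neg_mem' := by
    rintro x ⟨c, hc⟩
    refine ⟨fun i => - c i, ?_⟩
    rw [mul_neg, hc, ← map_neg, ← Finset.sum_neg_distrib]
    simp only [mul_neg]

theorem JI_mul {n : ℕ} (a : A) (b : Fin n → A) :
    ∀ j ∈ JI ι a b, ∀ c, j * ι c ∈ JI ι a b := by
  rintro j ⟨c, hc⟩ c'
  refine ⟨fun i => c i * c', ?_⟩
  rw [← mul_assoc, hc, ← map_mul, Finset.sum_mul]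
  simp only [mul_assoc]

theorem mem_LJ_JI {n : ℕ} (a : A) (ha : ι a ≠ 0) (b : Fin n → A) (x : A)
    (m : Fin n → A) (h : ∀ i, ι x * (ι a)⁻¹ * ι (b i) = ι (m i)) : x ∈ LJ ι (JI ι a b) := by
  rintro j ⟨c, hc⟩
  refine ⟨∑ i, m i * c i, ?_⟩
  have : j = (ι a)⁻¹ * ι (∑ i, b i * c i) := by rw [← hc, inv_mul_cancel_left₀ ha]
  rw [this, ← mul_assoc, map_sum, Finset.mul_sum, map_sum]
  refine Finset.sum_congr rfl fun i _ => ?_
  rw [map_mul, ← mul_assoc, h, map_mul]

theorem gen_mem_JI {n : ℕ} (a : A) (ha : ι a ≠ 0) (b : Fin n → A) (k : Fin n) :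
    (ι a)⁻¹ * ι (b k) ∈ JI ι a b := by
  classical
  refine ⟨Pi.single k 1, ?_⟩
  rw [mul_inv_cancel_left₀ ha]
  congr 1
  rw [Finset.sum_eq_single k]
  · simp
  · intro i _ hi
    rw [Pi.single_eq_of_ne hi, mul_zero]
  · intro h; exact absurd (Finset.mem_univ _) h

theorem H1_JI (hι : Function.Injective ι) (hR : RD A) (hL : LD A) {n : ℕ} (a : A) (ha : a ≠ 0)
    (b : Fin n → A) (M : Set A) (hM : IsRes A M) (hZ : InZ ι (JI ι a b) M) :
    ∃ τ ∉ M, τ ∈ LJ ι (JI ι a b) := by
  have ha' : ι a ≠ 0 := fun h => ha (hι (by rw [h, map_zero]))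
  choose x y z h1 h2 using fun i => hR (b i) a
  have hx : ∀ i, x i ∉ M := by
    intro i hx
    apply hM.one
    have h3 : 1 - x i ∈ M := by
      apply hZ
      have h4 : ι (1 - x i) = (ι a)⁻¹ * ι (b i) * ι (z i) := by
        rw [mul_assoc, ← map_mul, ← h2, map_mul, inv_mul_cancel_left₀ ha']
      rw [h4]
      exact JI_mul ι a b _ (gen_mem_JI ι a ha' b i) _
    have := hM.add _ h3 _ hx
    simpa using this
  obtain ⟨τ, y', hτ, hy'⟩ := ore_left_fin hL hM y x hx
  refine ⟨τ, hτ, mem_LJ_JI ι a ha' b τ y' ?_⟩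
  intro i
  have hxi : ι (x i) ≠ 0 := fun h => hx i (by
    have : x i = 0 := hι (by rw [h, map_zero])
    rw [this]; exact hM.zero)
  apply mul_right_cancel₀ hxi
  rw [mul_assoc, ← map_mul, h1, map_mul, mul_assoc, inv_mul_cancel_left₀ ha', ← map_mul, hy',
    map_mul]

theorem H2_JI [IsDomain A] (hι : Function.Injective ι) (hR : RD A) (hL : LD A) {n : ℕ} (a : A)
    (ha : a ≠ 0) (b : Fin n → A) (N : Set A) (hN : IsRes A N) (hZ : ¬ InZ ι (JI ι a b) N) :
    ∃ g ∈ LJ ι (JI ι a b), ∃ j ∈ JI ι a b, ∃ m ∉ N, ι g * j = ι m := by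
  classical
  have ha' : ι a ≠ 0 := fun h => ha (hι (by rw [h, map_zero]))
  obtain ⟨t, ⟨c, hc⟩, htN⟩ := not_InZ ι hZ
  have hc' : a * t = ∑ i, b i * c i := hι (by rw [map_mul, hc])
  have ht0 : t ≠ 0 := by rintro rfl; exact htN hN.zero
  have hn : Nonempty (Fin n) := by
    by_contra hn
    rw [not_nonempty_iff] at hn
    have : a * t = 0 := by rw [hc']; simp
    exact mul_ne_zero ha ht0 this
  obtain ⟨i₀⟩ := hn
  obtain ⟨j, hj⟩ := exists_local_gen hR hN b i₀
  choose s β hs hsβ using hj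
  obtain ⟨r, c', hr, hc''⟩ := ore_right_fin hR hN c s hs
  obtain ⟨γ, hγ⟩ : ∃ γ, γ = ∑ i, β i * c' i := ⟨_, rfl⟩
  have hγ' : a * (t * r) = b j * γ := by
    rw [← mul_assoc, hc', hγ, Finset.sum_mul, Finset.mul_sum]
    refine Finset.sum_congr rfl fun i _ => ?_
    rw [mul_assoc, hc'', ← mul_assoc, hsβ, mul_assoc]
  have htr : t * r ∉ N := hN.prime htN hr
  have htr0 : t * r ≠ 0 := by intro h; apply htr; rw [h]; exact hN.zero
  have hbj : b j ≠ 0 := by
    intro h
    rw [h, zero_mul] at hγ'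
    exact mul_ne_zero ha htr0 hγ'
  have hbj' : ι (b j) ≠ 0 := fun h => hbj (hι (by rw [h, map_zero]))
  have htr' : ι (t * r) ≠ 0 := fun h => htr0 (hι (by rw [h, map_zero]))
  obtain ⟨τ, w, hτ, hw⟩ := ore_left_fin hL hN (Fin.cons γ β : Fin (n + 1) → A)
    (Fin.cons (t * r) s) (by
      intro k
      refine Fin.cases ?_ (fun k => ?_) k
      · simpa using htr
      · simpa using hs k)
  have hw0 : τ * γ = w 0 * (t * r) := by simpa using hw 0
  have hwk : ∀ k : Fin n, τ * β k = w k.succ * s k := fun k => by simpa using hw k.succ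
  -- `g = w 0 = τ (b j)⁻¹ a`
  have hg : ι (w 0) = ι τ * (ι (b j))⁻¹ * ι a := by
    apply mul_right_cancel₀ htr'
    rw [← map_mul, ← hw0, mul_assoc, ← map_mul, hγ', map_mul, map_mul, mul_assoc,
      inv_mul_cancel_left₀ hbj']
  have hgb : ∀ i, ι (w 0) * (ι a)⁻¹ * ι (b i) = ι (w i.succ) := by
    intro i
    have hsi : ι (s i) ≠ 0 := fun h => hs i (by
      have : s i = 0 := hι (by rw [h, map_zero])
      rw [this]; exact hN.zero)
    apply mul_right_cancel₀ hsi
    rw [hg, mul_inv_cancel_right₀ ha', mul_assoc, ← map_mul, hsβ, map_mul, mul_assoc,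
      inv_mul_cancel_left₀ hbj', ← map_mul, ← map_mul, hwk]
  refine ⟨w 0, mem_LJ_JI ι a ha' b _ (fun i => w i.succ) hgb, (ι a)⁻¹ * ι (b j),
    gen_mem_JI ι a ha' b j, τ, hτ, ?_⟩
  rw [hg, mul_assoc, mul_inv_cancel_left₀ ha', mul_assoc, inv_mul_cancel₀ hbj', mul_one]

/-- hypothesis: every nonzero element is in only finitely many wild maximal ideals -/
def FinWild (A : Type u) [Ring A] : Prop :=
  ∀ t : A, t ≠ 0 → {M : Set A | IsRes A M ∧ t ∈ M ∧ ¬ Tame M}.Finite

theorem PJ_JI [IsDomain A] (hι : Function.Injective ι) (hR : RD A) (hL : LD A)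
    (hfin : FinWild A) {n : ℕ} (a : A) (ha : a ≠ 0) (b : Fin n → A) :
    ∃ ψ ∈ LJ ι (JI ι a b), ι (1 - ψ) ∈ JI ι a b := by
  have ha' : ι a ≠ 0 := fun h => ha (hι (by rw [h, map_zero]))
  by_cases hb : ∀ i, b i = 0
  · refine ⟨1, mem_LJ_JI ι a ha' b 1 (fun _ => 0) (fun i => by simp [hb]), ?_⟩
    rw [sub_self, map_zero]
    exact (JI ι a b).zero_mem
  push Not at hb
  obtain ⟨i, hi⟩ := hb
  obtain ⟨t, ht0, c, hc⟩ : ∃ t, t ≠ 0 ∧ ∃ c, a * t = b i * c := by
    obtain ⟨x, y, z, h1, h2⟩ := hR a (b i)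
    by_cases hx : x = 0
    · subst hx
      refine ⟨z, ?_, 1, by rw [← h2]; simp⟩
      rintro rfl
      apply hi
      simpa using h2
    · exact ⟨x, hx, y, h1⟩
  have htJ : ι t ∈ JI ι a b := by
    have : ι t = (ι a)⁻¹ * ι (b i) * ι c := by
      rw [mul_assoc, ← map_mul, ← hc, map_mul, inv_mul_cancel_left₀ ha']
    rw [this]
    exact JI_mul ι a b _ (gen_mem_JI ι a ha' b i) _
  refine PJ ι hR hL (JI ι a b) (JI_mul ι a b) (H1_JI ι hι hR hL a ha b)
    (H2_JI ι hι hR hL a ha b) hι ?_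
  refine (hfin t ht0).subset ?_
  rintro M ⟨hM, hZ, hT⟩
  exact ⟨hM, hZ t htJ, hT⟩

/-- `y J ⊆ J` for `y = 1 - ψ` -/
theorem yJ_sub [IsDomain A] (hι : Function.Injective ι) (hR : RD A)
    {n : ℕ} (a : A) (ha : a ≠ 0) (b : Fin n → A) (ψ : A) (hψ : ψ ∈ LJ ι (JI ι a b))
    (hy : ι (1 - ψ) ∈ JI ι a b) : ∀ j ∈ JI ι a b, ι (1 - ψ) * j ∈ JI ι a b := by
  have ha' : ι a ≠ 0 := fun h => ha (hι (by rw [h, map_zero]))
  intro j hj
  let Q : Submodule Aᵐᵒᵖ A :=
    { carrier := {s | ι (1 - ψ) * j * ι s ∈ JI ι a b}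
      zero_mem' := by simp [(JI ι a b).zero_mem]
      add_mem' := by
        intro s s' hs hs'
        have := (JI ι a b).add_mem hs hs'
        rw [← mul_add, ← map_add] at this
        exact this
      smul_mem' := by
        intro c s hs
        have := JI_mul ι a b _ hs c.unop
        rw [mul_assoc, ← map_mul] at this
        exact this }
  have hQ : (1 : A) ∈ Q := by
    by_contra hQ
    obtain ⟨M, hM, hQM⟩ := exists_res_of_right hR Q hQ
    by_cases hZ : InZ ι (JI ι a b) M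
    · obtain ⟨c, hc⟩ := id hj
      have hj' : j = (ι a)⁻¹ * ι (∑ i, b i * c i) := by rw [← hc, inv_mul_cancel_left₀ ha']
      obtain ⟨x, y0, z, h1, h2⟩ := hR (∑ i, b i * c i) a
      by_cases hx : x ∈ M
      · apply hM.one
        have h3 : 1 - x ∈ M := by
          apply hZ
          have h4 : ι (1 - x) = j * ι z := by
            rw [hj', mul_assoc, ← map_mul, ← h2, map_mul, inv_mul_cancel_left₀ ha']
          rw [h4]
          exact JI_mul ι a b _ hj _
        have := hM.add _ h3 _ hx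
        simpa using this
      · apply hx
        apply hQM
        show ι (1 - ψ) * j * ι x ∈ JI ι a b
        have h5 : j * ι x = ι y0 := by
          rw [hj', mul_assoc, ← map_mul, h1, map_mul, inv_mul_cancel_left₀ ha']
        rw [mul_assoc, h5]
        exact JI_mul ι a b _ hy _
    · obtain ⟨t, htJ, htM⟩ := not_InZ ι hZ
      obtain ⟨c, hc⟩ := hψ j hj
      obtain ⟨t', c', ht', hc'⟩ := ore_right hR hM c t htM
      apply ht'
      apply hQM
      show ι (1 - ψ) * j * ι t' ∈ JI ι a b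
      have : ι (1 - ψ) * j * ι t' = j * ι t' - ι t * ι c' := by
        rw [← map_mul, ← hc', map_mul, ← hc, map_sub, map_one]; noncomm_ring
      rw [this]
      exact (JI ι a b).sub_mem (JI_mul ι a b _ hj _) (JI_mul ι a b _ htJ _)
  have : ι (1 - ψ) * j * ι 1 ∈ JI ι a b := hQ
  rwa [map_one, mul_one] at this

/-- dual basis of the right ideal `∑ a_i A` -/
def DB {n : ℕ} (a : Fin n → A) : Prop :=
  (∀ i, a i = 0) ∨ ∃ x : Fin n → D, (∀ k i, ∃ m, x k * ι (a i) = ι m) ∧ ∑ k, ι (a k) * x k = 1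

theorem DB_all [IsDomain A] (hι : Function.Injective ι) (hR : RD A) (hL : LD A)
    (hfin : FinWild A) : ∀ {n : ℕ} (a : Fin n → A), DB ι a := by
  intro n
  induction n with
  | zero => intro a; left; intro i; exact i.elim0
  | succ n ih =>
    intro a
    obtain ⟨b, hb⟩ : ∃ b : Fin n → A, b = fun i => a i.succ := ⟨_, rfl⟩
    have hb' : ∀ i, a i.succ = b i := fun i => by rw [hb]
    obtain ⟨a0, ha0⟩ : ∃ a0, a0 = a 0 := ⟨_, rfl⟩
    rcases ih b with h0 | ⟨x, hx1, hx2⟩
    · by_cases ha : a0 = 0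
      · left
        intro i
        refine Fin.cases ?_ (fun i => ?_) i
        · rw [← ha0, ha]
        · rw [hb', h0]
      · right
        have ha' : ι a0 ≠ 0 := fun h => ha (hι (by rw [h, map_zero]))
        refine ⟨Fin.cons (ι a0)⁻¹ (fun _ => 0), ?_, ?_⟩
        · intro k i
          refine Fin.cases ?_ (fun k => ?_) k
          · refine Fin.cases ?_ (fun i => ?_) i
            · exact ⟨1, by rw [Fin.cons_zero, ← ha0, inv_mul_cancel₀ ha', map_one]⟩
            · exact ⟨0, by rw [hb', h0]; simp⟩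
          · exact ⟨0, by simp⟩
        · rw [Fin.sum_univ_succ]
          simp [← ha0, mul_inv_cancel₀ ha']
    · right
      by_cases ha : a0 = 0
      · refine ⟨Fin.cons 0 x, ?_, ?_⟩
        · intro k i
          refine Fin.cases ?_ (fun k => ?_) k
          · exact ⟨0, by simp⟩
          · refine Fin.cases ?_ (fun i => ?_) i
            · exact ⟨0, by rw [← ha0, ha]; simp⟩
            · rw [Fin.cons_succ, hb']; exact hx1 k i
        · rw [Fin.sum_univ_succ]
          simp [hb', hx2]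
      · have ha' : ι a0 ≠ 0 := fun h => ha (hι (by rw [h, map_zero]))
        obtain ⟨ψ, hψ, hy⟩ := PJ_JI ι hι hR hL hfin a0 ha b
        have hyJ := yJ_sub ι hι hR a0 ha b ψ hψ hy
        -- `x k * (elements of b A) ∈ A`
        have hxI : ∀ k, ∀ c : Fin n → A, ∃ m, x k * ι (∑ i, b i * c i) = ι m := by
          intro k c
          choose m hm using hx1 k
          refine ⟨∑ i, m i * c i, ?_⟩
          rw [map_sum, Finset.mul_sum, map_sum]
          refine Finset.sum_congr rfl fun i _ => ?_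
          rw [map_mul, ← mul_assoc, hm, map_mul]
        refine ⟨Fin.cons (ι ψ * (ι a0)⁻¹) (fun k => x k * (ι a0 * ι (1 - ψ) * (ι a0)⁻¹)),
          ?_, ?_⟩
        · intro k i
          refine Fin.cases ?_ (fun k => ?_) k
          · rw [Fin.cons_zero]
            refine Fin.cases ?_ (fun i => ?_) i
            · exact ⟨ψ, by rw [← ha0, inv_mul_cancel_right₀ ha']⟩
            · rw [hb', mul_assoc]
              exact hψ _ (gen_mem_JI ι a0 ha' b i)
          · rw [Fin.cons_succ]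
            refine Fin.cases ?_ (fun i => ?_) i
            · rw [← ha0, mul_assoc, inv_mul_cancel_right₀ ha']
              obtain ⟨c, hc⟩ := hy
              rw [hc]
              exact hxI k c
            · rw [hb']
              obtain ⟨c, hc⟩ := hyJ _ (gen_mem_JI ι a0 ha' b i)
              have : x k * (ι a0 * ι (1 - ψ) * (ι a0)⁻¹) * ι (b i) =
                  x k * (ι a0 * (ι (1 - ψ) * ((ι a0)⁻¹ * ι (b i)))) := by
                simp only [mul_assoc]
              rw [this, hc]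
              exact hxI k c
        · rw [Fin.sum_univ_succ]
          simp only [Fin.cons_zero, Fin.cons_succ, hb', ← ha0]
          have e1 : ∑ k, ι (b k) * (x k * (ι a0 * ι (1 - ψ) * (ι a0)⁻¹)) =
              ι a0 * ι (1 - ψ) * (ι a0)⁻¹ := by
            simp only [← mul_assoc]
            simp only [← Finset.sum_mul]
            rw [hx2, one_mul]
          rw [e1, map_sub, map_one]
          have : ι a0 * (ι ψ * (ι a0)⁻¹) + ι a0 * (1 - ι ψ) * (ι a0)⁻¹ =
              ι a0 * (ι a0)⁻¹ := by noncomm_ring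
          rw [this, mul_inv_cancel₀ ha']

end fg

end Pool.Agent.H8.Dist
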