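import Mathlib
import Pool.Agent.H8.Dist.Fg

/-!
# The left side (theorem of Small in our situation) and projectivity
-/

universe u

namespace Pool.Agent.H8.Dist

section left
variable {A : Type u} [Ring A]

theorem isRes_op {M : Set A} (h : IsRes A M) : IsRes Aᵐᵒᵖ (MulOpposite.unop ⁻¹' M) where
  zero := h.zero
  add := fun x hx y hy => h.add _ hx _ hy
  mul_left := fun a x hx => by
    have := h.mul_right a.unop _ hx
    simpa using this
  mul_right := fun a x hx => by
    have := h.mul_left a.unop _ hx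
    simpa using this
  one := h.one
  inv := fun x hx => by
    obtain ⟨y, h1, h2⟩ := h.inv _ hx
    exact ⟨MulOpposite.op y, by simpa using h2, by simpa using h1⟩

theorem exists_local_gen_left (hL : LD A) {M : Set A} (h : IsRes A M) {n : ℕ} (a : Fin n → A)
    (i₀ : Fin n) : ∃ j, ∀ i, ∃ s b, s ∉ M ∧ s * a i = b * a j := by
  obtain ⟨j, hj⟩ := exists_local_gen (RD_op hL) (isRes_op h) (fun i => MulOpposite.op (a i)) i₀
  refine ⟨j, fun i => ?_⟩
  obtain ⟨s, b, hs, hsb⟩ := hj i
  refine ⟨s.unop, b.unop, hs, ?_⟩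
  have := congrArg MulOpposite.unop hsb
  simpa using this

theorem common_left [IsDomain A] (hL : LD A) : ∀ {n : ℕ} (b : Fin n → A),
    ∃ c : A, c ≠ 0 ∧ ∀ j, b j ≠ 0 → ∃ c', c = c' * b j := by
  intro n
  induction n with
  | zero => intro b; exact ⟨1, one_ne_zero, fun j => j.elim0⟩
  | succ n ih =>
    intro b
    obtain ⟨c, hc, hcb⟩ := ih (fun i => b i.succ)
    by_cases hb : b 0 = 0
    · refine ⟨c, hc, fun j => ?_⟩
      refine Fin.cases ?_ (fun j => ?_) j
      · intro h; exact absurd hb h
      · intro h; exact hcb j h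
    · obtain ⟨x, y, z, h1, h2⟩ := hL c (b 0)
      by_cases hx : x = 0
      · subst hx
        have hzc : b 0 = z * c := by simpa using h2
        refine ⟨z * c, by rw [← hzc]; exact hb, fun j => ?_⟩
        refine Fin.cases ?_ (fun j => ?_) j
        · intro _; exact ⟨1, by rw [one_mul, hzc]⟩
        · intro h
          obtain ⟨c', hc'⟩ := hcb j h
          exact ⟨z * c', by rw [mul_assoc, ← hc']⟩
      · refine ⟨x * c, mul_ne_zero hx hc, fun j => ?_⟩
        refine Fin.cases ?_ (fun j => ?_) j
        · intro _; exact ⟨y, h1⟩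
        · intro h
          obtain ⟨c', hc'⟩ := hcb j h
          exact ⟨x * c', by rw [mul_assoc, ← hc']⟩

variable {D : Type u} [DivisionRing D] (ι : A →+* D)

/-- dual basis of the left ideal `∑ A b_i` -/
def DBl {n : ℕ} (b : Fin n → A) : Prop :=
  (∀ i, b i = 0) ∨ ∃ x : Fin n → D, (∀ k i, ∃ m, ι (b i) * x k = ι m) ∧ ∑ k, x k * ι (b k) = 1

theorem trace_left [IsDomain A] (hι : Function.Injective ι) (hR : RD A) (hL : LD A) {n : ℕ}
    (b : Fin n → A) (i₀ : Fin n) (hi₀ : b i₀ ≠ 0) :
    ∃ (r : Fin n → D) (s : Fin n → A), (∀ i j, ∃ m, ι (b i) * r j = ι m) ∧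
      (∀ j, r j = (ι (b j))⁻¹ * ι (s j)) ∧ (∀ j, ι (b j) * r j = ι (s j)) ∧ ∑ j, s j = 1 := by
  classical
  let H : Submodule Aᵐᵒᵖ A :=
    { carrier := {t | ∃ (r : Fin n → D) (s : Fin n → A), (∀ i j, ∃ m, ι (b i) * r j = ι m) ∧
        (∀ j, r j = (ι (b j))⁻¹ * ι (s j)) ∧ (∀ j, ι (b j) * r j = ι (s j)) ∧ ∑ j, s j = t}
      zero_mem' := ⟨fun _ => 0, fun _ => 0, fun i j => ⟨0, by simp⟩, fun j => by simp,
        fun j => by simp, by simp⟩
      add_mem' := by
        rintro x y ⟨r, s, h1, h2, h3, h4⟩ ⟨r', s', h1', h2', h3', h4'⟩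
        refine ⟨fun j => r j + r' j, fun j => s j + s' j, ?_, ?_, ?_, ?_⟩
        · intro i j
          obtain ⟨m, hm⟩ := h1 i j
          obtain ⟨m', hm'⟩ := h1' i j
          exact ⟨m + m', by rw [mul_add, hm, hm', map_add]⟩
        · intro j
          rw [map_add, mul_add, ← h2, ← h2']
        · intro j
          rw [mul_add, h3, h3', map_add]
        · rw [Finset.sum_add_distrib, h4, h4']
      smul_mem' := by
        rintro c x ⟨r, s, h1, h2, h3, h4⟩
        refine ⟨fun j => r j * ι c.unop, fun j => s j * c.unop, ?_, ?_, ?_, ?_⟩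
        · intro i j
          obtain ⟨m, hm⟩ := h1 i j
          exact ⟨m * c.unop, by rw [← mul_assoc, hm, map_mul]⟩
        · intro j
          rw [map_mul, ← mul_assoc, ← h2]
        · intro j
          rw [← mul_assoc, h3, map_mul]
        · rw [← Finset.sum_mul, h4]
          rfl }
  have h1 : (1 : A) ∈ H := by
    by_contra h1
    obtain ⟨M, hM, hHM⟩ := exists_res_of_right hR H h1
    obtain ⟨j, hj⟩ := exists_local_gen_left hL hM b i₀
    choose s b' hs hsb using hj
    have hsne : ∀ i, ι (s i) ≠ 0 := fun i h => hs i (by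
      have : s i = 0 := hι (by rw [h, map_zero])
      rw [this]; exact hM.zero)
    have hbj : b j ≠ 0 := by
      intro h
      have := hsb i₀
      rw [h, mul_zero] at this
      rcases mul_eq_zero.1 this with h | h
      · exact hs i₀ (by rw [h]; exact hM.zero)
      · exact hi₀ h
    have hbj' : ι (b j) ≠ 0 := fun h => hbj (hι (by rw [h, map_zero]))
    obtain ⟨t, b'', ht, hb''⟩ := ore_right_fin hR hM b' s hs
    have key : ∀ i, ι (b i) * ((ι (b j))⁻¹ * ι t) = ι (b'' i) := by
      intro i
      apply mul_left_cancel₀ (hsne i)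
      rw [← mul_assoc, ← map_mul, hsb, map_mul, mul_assoc, mul_inv_cancel_left₀ hbj', ← map_mul,
        hb'', map_mul]
    apply ht
    apply hHM
    refine ⟨Pi.single j ((ι (b j))⁻¹ * ι t), Pi.single j t, ?_, ?_, ?_, ?_⟩
    · intro i k
      by_cases hk : k = j
      · subst hk
        rw [Pi.single_eq_same]
        exact ⟨_, key i⟩
      · rw [Pi.single_eq_of_ne hk]
        exact ⟨0, by simp⟩
    · intro k
      by_cases hk : k = j
      · subst hk
        rw [Pi.single_eq_same, Pi.single_eq_same]
      · rw [Pi.single_eq_of_ne hk, Pi.single_eq_of_ne hk]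
        simp
    · intro k
      by_cases hk : k = j
      · subst hk
        rw [Pi.single_eq_same, Pi.single_eq_same, mul_inv_cancel_left₀ hbj']
      · rw [Pi.single_eq_of_ne hk, Pi.single_eq_of_ne hk]
        simp
    · rw [Finset.sum_pi_single']
      simp
  exact h1

theorem DBl_all [IsDomain A] (hι : Function.Injective ι) (hR : RD A) (hL : LD A)
    (hDB : ∀ {n : ℕ} (a : Fin n → A), DB ι a) {n : ℕ} (b : Fin n → A) : DBl ι b := by
  classical
  by_cases hb : ∀ i, b i = 0
  · exact Or.inl hb
  right
  push Not at hb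
  obtain ⟨i₀, hi₀⟩ := hb
  obtain ⟨r, s, hr1, hr2, hr3, hs1⟩ := trace_left ι hι hR hL b i₀ hi₀
  obtain ⟨c, hc, hcb⟩ := common_left hL b
  have hc' : ι c ≠ 0 := fun h => hc (hι (by rw [h, map_zero]))
  have hα : ∀ j, ∃ α, ι c * r j = ι α := by
    intro j
    by_cases hj : b j = 0
    · exact ⟨0, by rw [hr2, hj]; simp⟩
    · obtain ⟨c', hc'⟩ := hcb j hj
      have hbj' : ι (b j) ≠ 0 := fun h => hj (hι (by rw [h, map_zero]))
      exact ⟨c' * s j, by rw [hr2, hc', map_mul, mul_assoc, mul_inv_cancel_left₀ hbj', map_mul]⟩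
  choose α hα using hα
  rcases hDB α with h0 | ⟨u, hu1, hu2⟩
  · exfalso
    have : ∀ j, s j = 0 := by
      intro j
      have h1 : r j = 0 := by
        have := hα j
        rw [h0, map_zero] at this
        rcases mul_eq_zero.1 this with h | h
        · exact absurd h hc'
        · exact h
      apply hι
      rw [← hr3, h1, mul_zero, map_zero]
    have h1 := hs1
    simp only [this, Finset.sum_const_zero] at h1
    exact zero_ne_one h1
  -- `w k = u k * c`
  obtain ⟨w, hw⟩ : ∃ w : Fin n → D, w = fun k => u k * ι c := ⟨_, rfl⟩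
  have hw1 : ∀ k i, ∃ m, w k * r i = ι m := by
    intro k i
    obtain ⟨m, hm⟩ := hu1 k i
    exact ⟨m, by rw [hw]; simp only; rw [mul_assoc, hα, hm]⟩
  have hw2 : ∑ k, r k * w k = 1 := by
    apply mul_left_cancel₀ hc'
    rw [Finset.mul_sum, mul_one]
    have : ∀ k, ι c * (r k * w k) = ι (α k) * u k * ι c := by
      intro k
      rw [← mul_assoc, hα, hw, mul_assoc]
    simp only [this]
    rw [← Finset.sum_mul, hu2, one_mul]
  -- `w k ∈ ∑ A b_i`
  have hw3 : ∀ k, ∃ γ : Fin n → A, w k = ∑ i, ι (γ i) * ι (b i) := by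
    intro k
    let Q : Ideal A :=
      { carrier := {t | ∃ γ : Fin n → A, ι t * w k = ∑ i, ι (γ i) * ι (b i)}
        zero_mem' := ⟨fun _ => 0, by simp⟩
        add_mem' := by
          rintro x y ⟨γ, hγ⟩ ⟨γ', hγ'⟩
          refine ⟨fun i => γ i + γ' i, ?_⟩
          rw [map_add, add_mul, hγ, hγ', ← Finset.sum_add_distrib]
          simp only [map_add, add_mul]
        smul_mem' := by
          rintro c x ⟨γ, hγ⟩
          refine ⟨fun i => c * γ i, ?_⟩
          rw [smul_eq_mul, map_mul, mul_assoc, hγ, Finset.mul_sum]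
          simp only [map_mul, mul_assoc] }
    have hQ : (1 : A) ∈ Q := by
      by_contra hQ
      obtain ⟨M, hM, hQM⟩ := exists_res_of_left hL Q hQ
      obtain ⟨j, hj⟩ : ∃ j, s j ∉ M := by
        by_contra h
        push Not at h
        apply hM.one
        rw [← hs1]
        exact hM.sum _ _ fun j _ => h j
      have hsj : ι (s j) ≠ 0 := fun h => hj (by
        have : s j = 0 := hι (by rw [h, map_zero])
        rw [this]; exact hM.zero)
      have hbj' : ι (b j) ≠ 0 := by
        intro h
        apply hsj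
        rw [← hr3, h, zero_mul]
      obtain ⟨m, hm⟩ := hw1 k j
      obtain ⟨t', b', ht', hb'⟩ := ore_left hL hM m (s j) hj
      apply ht'
      apply hQM
      refine ⟨Pi.single j b', ?_⟩
      rw [Finset.sum_eq_single j]
      · rw [Pi.single_eq_same]
        have e1 : ι t' * w k * (ι (b j))⁻¹ * ι (s j) = ι b' * ι (s j) := by
          rw [← map_mul, ← hb', map_mul, ← hm, hr2]
          simp only [mul_assoc]
        have e2 := mul_right_cancel₀ hsj e1
        rw [← e2, inv_mul_cancel_right₀ hbj']
      · intro i _ hi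
        rw [Pi.single_eq_of_ne hi, map_zero, zero_mul]
      · intro h; exact absurd (Finset.mem_univ _) h
    obtain ⟨γ, hγ⟩ := hQ
    exact ⟨γ, by rw [← hγ, map_one, one_mul]⟩
  choose γ hγ using hw3
  refine ⟨fun i => ∑ k, r k * ι (γ k i), ?_, ?_⟩
  · intro k i
    choose m hm using fun l => hr1 i l
    refine ⟨∑ l, m l * γ l k, ?_⟩
    rw [Finset.mul_sum, map_sum]
    refine Finset.sum_congr rfl fun l _ => ?_
    rw [← mul_assoc, hm, map_mul]
  · rw [← hw2]
    simp only [Finset.sum_mul]
    rw [Finset.sum_comm]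
    refine Finset.sum_congr rfl fun k _ => ?_
    rw [hγ, Finset.mul_sum]
    simp only [mul_assoc]

theorem proj_left (hι : Function.Injective ι) {n : ℕ} (b : Fin n → A) (h : DBl ι b) :
    Module.Projective A (Submodule.span A (Set.range b)) := by
  rcases h with h0 | ⟨x, hx1, hx2⟩
  · refine projective_span b (fun _ _ => 0) (fun i => by simp [h0]) (fun x _ k => by simp)
  · choose m hm using hx1
    refine projective_span b (fun i k => m k i) ?_ ?_
    · intro i
      apply hι
      rw [map_sum]
      have : ∀ k, ι (m k i • b k) = ι (b i) * (x k * ι (b k)) := by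
        intro k
        rw [smul_eq_mul, map_mul, ← hm, mul_assoc]
      simp only [this]
      rw [← Finset.mul_sum, hx2, mul_one]
    · intro y hy k
      apply hι
      rw [map_sum, map_zero]
      have : ∀ i, ι (y i * m k i) = ι (y i • b i) * x k := by
        intro i
        rw [smul_eq_mul, map_mul, map_mul, ← hm, mul_assoc]
      simp only [this]
      rw [← Finset.sum_mul, ← map_sum, hy, map_zero, zero_mul]

theorem proj_right (hι : Function.Injective ι) {n : ℕ} (b : Fin n → A) (h : DB ι b) :
    Module.Projective Aᵐᵒᵖ (Submodule.span Aᵐᵒᵖ (Set.range b)) := by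
  rcases h with h0 | ⟨x, hx1, hx2⟩
  · refine projective_span b (fun _ _ => 0) (fun i => by simp [h0]) (fun x _ k => by simp)
  · choose m hm using hx1
    refine projective_span b (fun i k => MulOpposite.op (m k i)) ?_ ?_
    · intro i
      apply hι
      rw [map_sum]
      have : ∀ k, ι (MulOpposite.op (m k i) • b k) = (ι (b k) * x k) * ι (b i) := by
        intro k
        rw [MulOpposite.smul_eq_mul_unop, MulOpposite.unop_op, map_mul, ← hm, mul_assoc]
      simp only [this]
      rw [← Finset.sum_mul, hx2, one_mul]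
    · intro y hy k
      apply MulOpposite.unop_injective
      apply hι
      rw [MulOpposite.unop_zero, map_zero, Finset.unop_sum, map_sum]
      have : ∀ i, ι (MulOpposite.unop (y i * MulOpposite.op (m k i))) =
          x k * ι (y i • b i) := by
        intro i
        rw [MulOpposite.unop_mul, MulOpposite.unop_op, MulOpposite.smul_eq_mul_unop, map_mul,
          map_mul, ← hm, mul_assoc]
      simp only [this]
      rw [← Finset.mul_sum, ← map_sum, hy, map_zero, mul_zero]

end left

end Pool.Agent.H8.Dist
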