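import Mathlib
import Pool.Agent.H8.Dist.Left

/-!
# Coherence and the vanishing of Ext^1 for left and right distributive domains
-/

universe u

namespace Pool.Agent.H8.Dist

section coh
variable {A : Type u} [Ring A]

/-- `n`-element form of left distributivity -/
theorem left_split (hL : LD A) {n : ℕ} (b : Fin n → A) (i₀ : Fin n) :
    ∃ (s : Fin n → A) (φ : Fin n → Fin n → A), ∑ j, s j = 1 ∧
      ∀ i j, s j * b i = φ j i * b j := by
  classical
  let H : Ideal A :=
    { carrier := {t | ∃ (s : Fin n → A) (φ : Fin n → Fin n → A), ∑ j, s j = t ∧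
        ∀ i j, s j * b i = φ j i * b j}
      zero_mem' := ⟨fun _ => 0, fun _ _ => 0, by simp, fun i j => by simp⟩
      add_mem' := by
        rintro x y ⟨s, φ, h1, h2⟩ ⟨s', φ', h1', h2'⟩
        refine ⟨fun j => s j + s' j, fun j i => φ j i + φ' j i, ?_, ?_⟩
        · rw [Finset.sum_add_distrib, h1, h1']
        · intro i j
          rw [add_mul, add_mul, h2, h2']
      smul_mem' := by
        rintro c x ⟨s, φ, h1, h2⟩
        refine ⟨fun j => c * s j, fun j i => c * φ j i, ?_, ?_⟩
        · rw [← Finset.mul_sum, h1, smul_eq_mul]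
        · intro i j
          rw [mul_assoc, h2, mul_assoc] }
  have h1 : (1 : A) ∈ H := by
    by_contra h1
    obtain ⟨M, hM, hHM⟩ := exists_res_of_left hL H h1
    obtain ⟨j, hj⟩ := exists_local_gen_left hL hM b i₀
    choose s β hs hsβ using hj
    obtain ⟨t, b', ht, hb'⟩ := ore_left_fin hL hM (fun _ => 1) s hs
    apply ht
    apply hHM
    refine ⟨Pi.single j t, Pi.single j (fun i => b' i * β i), ?_, ?_⟩
    · rw [Finset.sum_pi_single']
      simp
    · intro i k
      by_cases hk : k = j
      · subst hk
        rw [Pi.single_eq_same, Pi.single_eq_same]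
        have := hb' i
        rw [mul_one] at this
        rw [this, mul_assoc, hsβ, mul_assoc]
      · rw [Pi.single_eq_of_ne hk, Pi.single_eq_of_ne hk]
        simp
  exact h1

/-- the relations of one column -/
def rel {n : ℕ} (b : Fin n → A) : (Fin n → A) →ₗ[A] A where
  toFun x := ∑ i, x i * b i
  map_add' x y := by simp [add_mul, Finset.sum_add_distrib]
  map_smul' c x := by simp [mul_assoc, Finset.mul_sum]

theorem rel_apply {n : ℕ} (b x : Fin n → A) : rel b x = ∑ i, x i * b i := rfl

theorem rel_single {n : ℕ} (b : Fin n → A) (i : Fin n) (a : A) :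
    rel b (Pi.single i a) = a * b i := by
  rw [rel_apply, Finset.sum_eq_single i]
  · rw [Pi.single_eq_same]
  · intro j _ hj
    rw [Pi.single_eq_of_ne hj, zero_mul]
  · intro h; exact absurd (Finset.mem_univ _) h

theorem rel_fg [IsDomain A] (hL : LD A) {n : ℕ} (b : Fin n → A) :
    (LinearMap.ker (rel b)).FG := by
  classical
  by_cases hb : ∀ i, b i = 0
  · have : LinearMap.ker (rel b) = ⊤ := by
      rw [LinearMap.ker_eq_top]
      ext x
      simp [rel_apply, hb]
    rw [this]
    exact Module.Finite.fg_top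
  push Not at hb
  obtain ⟨i₀, hi₀⟩ := hb
  obtain ⟨s, φ, hs1, hs2⟩ := left_split hL b i₀
  have hbj : ∀ j, s j ≠ 0 → b j ≠ 0 := by
    intro j hj h
    have := hs2 i₀ j
    rw [h, mul_zero] at this
    rcases mul_eq_zero.1 this with h | h
    · exact hj h
    · exact hi₀ h
  let g : Fin n × Fin n → (Fin n → A) := fun p => Pi.single p.1 (s p.2) - Pi.single p.2 (φ p.2 p.1)
  have hg : ∀ p, g p ∈ LinearMap.ker (rel b) := by
    intro p
    rw [LinearMap.mem_ker, map_sub, rel_single, rel_single, hs2, sub_self]
  have hspan : LinearMap.ker (rel b) = Submodule.span A (Set.range g) := by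
    apply le_antisymm
    · intro x hx
      rw [LinearMap.mem_ker] at hx
      let Q : Ideal A :=
        { carrier := {t | t • x ∈ Submodule.span A (Set.range g)}
          zero_mem' := by simp
          add_mem' := by
            intro a c ha hc
            simp only [Set.mem_ofPred_eq, add_smul]
            exact Submodule.add_mem _ ha hc
          smul_mem' := by
            intro c t ht
            simp only [Set.mem_ofPred_eq, smul_eq_mul, mul_smul]
            exact Submodule.smul_mem _ _ ht }
      have hQ : (1 : A) ∈ Q := by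
        by_contra hQ
        obtain ⟨M, hM, hQM⟩ := exists_res_of_left hL Q hQ
        obtain ⟨j, hj⟩ : ∃ j, s j ∉ M := by
          by_contra h
          push Not at h
          apply hM.one
          rw [← hs1]
          exact hM.sum _ _ fun j _ => h j
        have hsj : s j ≠ 0 := fun h => hj (by rw [h]; exact hM.zero)
        obtain ⟨t, y, ht, hy⟩ := ore_left_fin hL hM x (fun _ => s j) (fun _ => hj)
        apply ht
        apply hQM
        show t • x ∈ Submodule.span A (Set.range g)
        have hz : ∑ i, y i * φ j i = 0 := by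
          have h1 : (∑ i, y i * φ j i) * b j = 0 := by
            rw [Finset.sum_mul]
            have : ∀ i, y i * φ j i * b j = t * (x i * b i) := by
              intro i
              rw [mul_assoc, ← hs2, ← mul_assoc, ← hy, mul_assoc]
            simp only [this]
            rw [← Finset.mul_sum, ← rel_apply, hx, mul_zero]
          rcases mul_eq_zero.1 h1 with h | h
          · exact h
          · exact absurd h (hbj j hsj)
        have key : t • x = ∑ i, y i • g (i, j) := by
          have e1 : ∑ i, y i • g (i, j) =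
              ∑ i, y i • (Pi.single i (s j) : Fin n → A) -
                ∑ i, y i • (Pi.single j (φ j i) : Fin n → A) := by
            rw [← Finset.sum_sub_distrib]
            refine Finset.sum_congr rfl fun i _ => ?_
            rw [← smul_sub]
          have e2 : ∑ i, y i • (Pi.single j (φ j i) : Fin n → A) = 0 := by
            have : ∀ i, y i • (Pi.single j (φ j i) : Fin n → A) = Pi.single j (y i * φ j i) := by
              intro i
              rw [← Pi.single_smul, smul_eq_mul]
            simp only [this]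
            have h2 := map_sum (AddMonoidHom.single (fun _ : Fin n => A) j)
              (fun i => y i * φ j i) Finset.univ
            simp only [AddMonoidHom.single_apply] at h2
            rw [← h2, hz, Pi.single_zero]
          rw [e1, e2, sub_zero]
          ext k
          rw [Finset.sum_apply, Finset.sum_eq_single k]
          · rw [Pi.smul_apply, Pi.smul_apply, Pi.single_eq_same, smul_eq_mul, smul_eq_mul, hy]
          · intro i _ hi
            rw [Pi.smul_apply, Pi.single_eq_of_ne (Ne.symm hi), smul_zero]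
          · intro h; exact absurd (Finset.mem_univ _) h
        rw [key]
        exact Submodule.sum_mem _ fun i _ =>
          Submodule.smul_mem _ _ (Submodule.subset_span ⟨_, rfl⟩)
      have h1 : (1 : A) • x ∈ Submodule.span A (Set.range g) := hQ
      rwa [one_smul] at h1
    · rw [Submodule.span_le]
      rintro _ ⟨p, rfl⟩
      exact hg p
  rw [hspan]
  exact Submodule.fg_span (Set.finite_range g)

theorem ore_left0 [IsDomain A] (hL : LD A) (b s : A) (hs : s ≠ 0) :
    ∃ t b', t ≠ 0 ∧ t * b = b' * s := by
  obtain ⟨x, y, z, h1, h2⟩ := hL b s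
  by_cases hx : x = 0
  · subst hx
    have hz : s = z * b := by simpa using h2
    refine ⟨z, 1, ?_, by rw [one_mul, ← hz]⟩
    rintro rfl
    exact hs (by rw [hz, zero_mul])
  · exact ⟨x, y, hx, h1⟩

theorem ore_left0_fin [IsDomain A] (hL : LD A) {n : ℕ} (b s : Fin n → A) (hs : ∀ k, s k ≠ 0) :
    ∃ (t : A) (b' : Fin n → A), t ≠ 0 ∧ ∀ k, t * b k = b' k * s k := by
  induction n with
  | zero => exact ⟨1, fun _ => 0, one_ne_zero, fun k => k.elim0⟩
  | succ n ih =>
    obtain ⟨t, b', ht, hb'⟩ := ih (fun k => b k.succ) (fun k => s k.succ) (fun k => hs _)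
    obtain ⟨t', c, ht', hc⟩ := ore_left0 hL (t * b 0) (s 0) (hs 0)
    refine ⟨t' * t, Fin.cons c (fun k => t' * b' k), mul_ne_zero ht' ht, ?_⟩
    intro k
    refine Fin.cases ?_ (fun k => ?_) k
    · simp only [Fin.cons_zero]
      rw [mul_assoc, hc]
    · simp only [Fin.cons_succ]
      rw [mul_assoc, hb' k, mul_assoc]

/-- every functional on the relations of a column is given by a column -/
theorem rel_ext [IsDomain A] (hL : LD A) (hR : RD A) {n : ℕ} (b : Fin n → A)
    (h : LinearMap.ker (rel b) →ₗ[A] A) : ∃ c : Fin n → A, ∀ x, h x = rel c x.1 := by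
  classical
  by_cases hb : ∀ i, b i = 0
  · have hm : ∀ x : Fin n → A, x ∈ LinearMap.ker (rel b) := by
      intro x
      rw [LinearMap.mem_ker, rel_apply]
      simp [hb]
    refine ⟨fun i => h ⟨Pi.single i 1, hm _⟩, ?_⟩
    rintro ⟨x, hx⟩
    have hxs : (⟨x, hx⟩ : LinearMap.ker (rel b)) = ∑ i, x i • ⟨Pi.single i 1, hm _⟩ := by
      apply Subtype.ext
      rw [AddSubmonoidClass.coe_finsetSum]
      simp only [Submodule.coe_smul]
      ext k
      rw [Finset.sum_apply, Finset.sum_eq_single k]
      · simp
      · intro i _ hi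
        rw [Pi.smul_apply, Pi.single_eq_of_ne (Ne.symm hi), smul_zero]
      · intro h; exact absurd (Finset.mem_univ _) h
    have h1 := congrArg h hxs
    rw [map_sum] at h1
    simp only [map_smul, smul_eq_mul] at h1
    rw [h1, rel_apply]
  push Not at hb
  obtain ⟨i₀, hi₀⟩ := hb
  obtain ⟨D, _, ι, hι⟩ := exists_divisionRing hL
  have hne : ∀ {x : A}, x ≠ 0 → ι x ≠ 0 := fun hx h => hx (hι (by rw [h, map_zero]))
  choose t r ht htr using fun i => ore_left0 hL (b i) (b i₀) hi₀
  have hv : ∀ i, (Pi.single i (t i) - Pi.single i₀ (r i) : Fin n → A) ∈ LinearMap.ker (rel b) := by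
    intro i
    rw [LinearMap.mem_ker, map_sub, rel_single, rel_single, htr, sub_self]
  let d : Fin n → D := fun i => (ι (t i))⁻¹ * ι (h ⟨_, hv i⟩)
  have htd : ∀ i, ι (t i) * d i = ι (h ⟨_, hv i⟩) := fun i => mul_inv_cancel_left₀ (hne (ht i)) _
  have hd : ∀ x : LinearMap.ker (rel b), ι (h x) = ∑ i, ι (x.1 i) * d i := by
    rintro ⟨x, hx⟩
    obtain ⟨s, y, hs, hy⟩ := ore_left0_fin hL x t ht
    have hxy : s • x = ∑ i, y i • (Pi.single i (t i) - Pi.single i₀ (r i) : Fin n → A) +
        Pi.single i₀ (∑ i, y i * r i) := by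
      have e2 : ∑ i, y i • (Pi.single i₀ (r i) : Fin n → A) = Pi.single i₀ (∑ i, y i * r i) := by
        have : ∀ i, y i • (Pi.single i₀ (r i) : Fin n → A) = Pi.single i₀ (y i * r i) := by
          intro i
          rw [← Pi.single_smul, smul_eq_mul]
        simp only [this]
        have h2 := map_sum (AddMonoidHom.single (fun _ : Fin n => A) i₀)
          (fun i => y i * r i) Finset.univ
        simp only [AddMonoidHom.single_apply] at h2
        rw [← h2]
      have e1 : ∑ i, y i • (Pi.single i (t i) : Fin n → A) = s • x := by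
        ext k
        rw [Finset.sum_apply, Finset.sum_eq_single k]
        · rw [Pi.smul_apply, Pi.smul_apply, Pi.single_eq_same, smul_eq_mul, smul_eq_mul, hy]
        · intro i _ hi
          rw [Pi.smul_apply, Pi.single_eq_of_ne (Ne.symm hi), smul_zero]
        · intro h; exact absurd (Finset.mem_univ _) h
      simp only [smul_sub, Finset.sum_sub_distrib]
      rw [e1, e2, sub_add_cancel]
    have hz : ∑ i, y i * r i = 0 := by
      have h1 := congrArg (rel b) hxy
      rw [map_add, map_sum, rel_single, map_smul, LinearMap.mem_ker.1 hx, smul_zero] at h1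
      simp only [map_smul, LinearMap.mem_ker.1 (hv _), smul_zero, Finset.sum_const_zero,
        zero_add] at h1
      rcases mul_eq_zero.1 h1.symm with h | h
      · exact h
      · exact absurd h hi₀
    rw [hz, Pi.single_zero, add_zero] at hxy
    have hxy' : s • (⟨x, hx⟩ : LinearMap.ker (rel b)) = ∑ i, y i • ⟨_, hv i⟩ := by
      apply Subtype.ext
      rw [AddSubmonoidClass.coe_finsetSum]
      simpa only [Submodule.coe_smul] using hxy
    have h3 := congrArg h hxy'
    rw [map_smul, map_sum] at h3
    simp only [map_smul, smul_eq_mul] at h3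
    apply mul_left_cancel₀ (hne hs)
    rw [← map_mul, h3, map_sum, Finset.mul_sum]
    refine Finset.sum_congr rfl fun i _ => ?_
    rw [map_mul, ← htd, ← mul_assoc, ← map_mul, ← hy, map_mul, mul_assoc]
  let Q : Submodule Aᵐᵒᵖ A :=
    { carrier := {s | ∃ e : D, ∀ i, ∃ m, d i * ι s - ι (b i) * e = ι m}
      zero_mem' := ⟨0, fun i => ⟨0, by simp⟩⟩
      add_mem' := by
        rintro s s' ⟨e, he⟩ ⟨e', he'⟩
        refine ⟨e + e', fun i => ?_⟩
        obtain ⟨m, hm⟩ := he i
        obtain ⟨m', hm'⟩ := he' i
        refine ⟨m + m', ?_⟩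
        rw [map_add, map_add, ← hm, ← hm']
        noncomm_ring
      smul_mem' := by
        rintro c s ⟨e, he⟩
        refine ⟨e * ι c.unop, fun i => ?_⟩
        obtain ⟨m, hm⟩ := he i
        refine ⟨m * c.unop, ?_⟩
        rw [MulOpposite.smul_eq_mul_unop, map_mul, map_mul, ← hm]
        noncomm_ring }
  have hQ : (1 : A) ∈ Q := by
    by_contra hQ
    obtain ⟨M, hM, hQM⟩ := exists_res_of_right hR Q hQ
    obtain ⟨j, hj⟩ := exists_local_gen_left hL hM b i₀
    choose σ β hσ hσβ using hj
    have hσ0 : ∀ i, σ i ≠ 0 := fun i h => hσ i (by rw [h]; exact hM.zero)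
    have hbj : b j ≠ 0 := by
      intro h
      have := hσβ i₀
      rw [h, mul_zero] at this
      rcases mul_eq_zero.1 this with h | h
      · exact hσ0 i₀ h
      · exact hi₀ h
    have hw : ∀ i, (Pi.single i (σ i) - Pi.single j (β i) : Fin n → A) ∈
        LinearMap.ker (rel b) := by
      intro i
      rw [LinearMap.mem_ker, map_sub, rel_single, rel_single, hσβ, sub_self]
    have hsum : ∀ (i : Fin n) (a : A), ∑ k, ι ((Pi.single i a : Fin n → A) k) * d k =
        ι a * d i := by
      intro i a
      rw [Finset.sum_eq_single i]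
      · rw [Pi.single_eq_same]
      · intro k _ hk
        rw [Pi.single_eq_of_ne hk, map_zero, zero_mul]
      · intro h; exact absurd (Finset.mem_univ _) h
    have hm : ∀ i, ι (σ i) * d i - ι (β i) * d j = ι (h ⟨_, hw i⟩) := by
      intro i
      rw [hd]
      simp only [Pi.sub_apply, map_sub, sub_mul, Finset.sum_sub_distrib]
      rw [hsum, hsum]
    obtain ⟨s, b', hs, hb'⟩ := ore_right_fin hR hM (fun i => h ⟨_, hw i⟩) σ hσ
    apply hs
    apply hQM
    refine ⟨(ι (b j))⁻¹ * (d j * ι s), fun i => ⟨b' i, ?_⟩⟩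
    apply mul_left_cancel₀ (hne (hσ0 i))
    rw [← map_mul, ← hb', map_mul, ← hm, mul_sub, ← mul_assoc (ι (σ i)) (ι (b i)), ← map_mul,
      hσβ, map_mul, mul_assoc (ι (β i)), mul_inv_cancel_left₀ (hne hbj)]
    noncomm_ring
  obtain ⟨e, he⟩ := hQ
  choose c hc using he
  refine ⟨c, fun x => hι ?_⟩
  rw [hd, rel_apply, map_sum]
  have h1 : ∀ i, ι (x.1 i * c i) = ι (x.1 i) * d i - ι (x.1 i * b i) * e := by
    intro i
    rw [map_mul, ← hc, map_one, mul_one, map_mul, mul_sub, mul_assoc]
  simp only [h1]
  have h2 : ∑ i, x.1 i * b i = 0 := LinearMap.mem_ker.1 x.2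
  rw [Finset.sum_sub_distrib, ← Finset.sum_mul, ← map_sum, h2, map_zero, zero_mul, sub_zero]

theorem exists_gen {R : Type*} [Ring R] {m : ℕ} {K : Submodule R (Fin m → R)} (hK : K.FG) :
    ∃ (N : ℕ) (κ : (Fin N → R) →ₗ[R] (Fin m → R)), LinearMap.range κ = K := by
  obtain ⟨N, s, hs⟩ := Submodule.fg_iff_exists_fin_generating_family.1 hK
  exact ⟨N, Fintype.linearCombination R s, by rw [Fintype.range_linearCombination, hs]⟩

/-- kernels of maps between finite free modules are finitely generated, and functionals on them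
extend -/
theorem ker_fg_ext [IsDomain A] (hL : LD A) (hR : RD A) : ∀ (n : ℕ) {m : ℕ}
    (f : (Fin m → A) →ₗ[A] (Fin n → A)), (LinearMap.ker f).FG ∧
      ∀ h : LinearMap.ker f →ₗ[A] A, ∃ g : (Fin m → A) →ₗ[A] A, ∀ x, h x = g x.1 := by
  intro n
  induction n with
  | zero =>
    intro m f
    have hm : ∀ x, x ∈ LinearMap.ker f := fun x => by
      rw [LinearMap.mem_ker]
      exact Subsingleton.elim _ _
    have hk : LinearMap.ker f = ⊤ := by
      rw [eq_top_iff]
      intro x _
      exact hm x
    refine ⟨by rw [hk]; exact Module.Finite.fg_top, fun h => ?_⟩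
    exact ⟨h.comp (LinearMap.codRestrict _ LinearMap.id hm), fun x => rfl⟩
  | succ n ih =>
    intro m f
    classical
    obtain ⟨b, hb⟩ : ∃ b : Fin m → A, b = fun i => f (Pi.single i 1) 0 := ⟨_, rfl⟩
    have hfb : ∀ x, f x 0 = rel b x := by
      intro x
      have h1 : (LinearMap.proj 0 : (Fin (n + 1) → A) →ₗ[A] A).comp f = rel b := by
        apply LinearMap.pi_ext'
        intro i
        apply LinearMap.ext_ring
        simp only [LinearMap.comp_apply, LinearMap.single_apply, LinearMap.proj_apply]
        rw [rel_single, hb, one_mul]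
      exact LinearMap.congr_fun h1 x
    let f' : (Fin m → A) →ₗ[A] (Fin n → A) := (LinearMap.funLeft A A Fin.succ).comp f
    have hf' : ∀ x i, f' x i = f x i.succ := fun x i => rfl
    have hker : ∀ x, x ∈ LinearMap.ker f ↔ rel b x = 0 ∧ f' x = 0 := by
      intro x
      rw [LinearMap.mem_ker]
      constructor
      · intro h
        refine ⟨by rw [← hfb, h]; rfl, ?_⟩
        ext i
        rw [hf', h]; rfl
      · rintro ⟨h1, h2⟩
        ext i
        refine Fin.cases ?_ (fun i => ?_) i
        · rw [hfb, h1]; rfl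
        · rw [← hf', h2]; rfl
    obtain ⟨N, κ, hκ⟩ := exists_gen (rel_fg hL b)
    have hκb : ∀ y, rel b (κ y) = 0 := by
      intro y
      have : κ y ∈ LinearMap.ker (rel b) := by rw [← hκ]; exact ⟨y, rfl⟩
      exact LinearMap.mem_ker.1 this
    obtain ⟨h1, h2⟩ := ih (f'.comp κ)
    have hmem : ∀ y, y ∈ LinearMap.ker (f'.comp κ) ↔ κ y ∈ LinearMap.ker f := by
      intro y
      rw [hker]
      constructor
      · intro h
        exact ⟨hκb y, by simpa using h⟩
      · intro h
        simpa using h.2
    constructor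
    · have : LinearMap.ker f = Submodule.map κ (LinearMap.ker (f'.comp κ)) := by
        ext x
        constructor
        · intro hx
          have hx1 : x ∈ LinearMap.range κ := by
            rw [hκ, LinearMap.mem_ker]
            exact ((hker x).1 hx).1
          obtain ⟨y, rfl⟩ := hx1
          exact ⟨y, (hmem y).2 hx, rfl⟩
        · rintro ⟨y, hy, rfl⟩
          exact (hmem y).1 hy
      rw [this]
      exact h1.map κ
    · intro h
      obtain ⟨g'', hg''⟩ := h2 (h.comp (κ.restrict (fun y hy => (hmem y).1 hy)))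
      have hg3 : ∀ y (hy : κ y ∈ LinearMap.ker f), g'' y = h ⟨κ y, hy⟩ := by
        intro y hy
        have := hg'' ⟨y, (hmem y).2 hy⟩
        rw [← this]
        rfl
      have hle : LinearMap.ker κ ≤ LinearMap.ker g'' := by
        intro y hy
        rw [LinearMap.mem_ker] at hy ⊢
        have h0 : κ y ∈ LinearMap.ker f := by rw [hy]; exact Submodule.zero_mem _
        rw [hg3 y h0]
        have : (⟨κ y, h0⟩ : LinearMap.ker f) = 0 := Subtype.ext hy
        rw [this, map_zero]
      let H : LinearMap.ker (rel b) →ₗ[A] A :=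
        (((LinearMap.ker κ).liftQ g'' hle).comp κ.quotKerEquivRange.symm.toLinearMap).comp
          (LinearEquiv.ofEq _ _ hκ.symm).toLinearMap
      have hH : ∀ y (hy : κ y ∈ LinearMap.ker (rel b)), H ⟨κ y, hy⟩ = g'' y := by
        intro y hy
        have e1 : (LinearEquiv.ofEq _ _ hκ.symm).toLinearMap (⟨κ y, hy⟩ : LinearMap.ker (rel b)) =
            (⟨κ y, ⟨y, rfl⟩⟩ : LinearMap.range κ) := rfl
        have e2 : κ.quotKerEquivRange.symm (⟨κ y, ⟨y, rfl⟩⟩ : LinearMap.range κ) =
            (LinearMap.ker κ).mkQ y := by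
          rw [LinearEquiv.symm_apply_eq]
          rfl
        show ((LinearMap.ker κ).liftQ g'' hle) (κ.quotKerEquivRange.symm
          ((LinearEquiv.ofEq _ _ hκ.symm).toLinearMap _)) = _
        rw [e1, e2]
        simp
      obtain ⟨c, hc⟩ := rel_ext hL hR b H
      refine ⟨rel c, ?_⟩
      rintro ⟨x, hx⟩
      have hx1 : x ∈ LinearMap.range κ := by
        rw [hκ, LinearMap.mem_ker]
        exact ((hker x).1 hx).1
      obtain ⟨y, rfl⟩ := hx1
      have hy : κ y ∈ LinearMap.ker (rel b) := LinearMap.mem_ker.2 (hκb y)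
      rw [← hg3 y hx, ← hH y hy, hc]

end coh

end Pool.Agent.H8.Dist
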