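import Mathlib
import Pool.Agent.H8.Dist.Coh

/-!
# Finite projective dimension implies projective
-/

universe u

namespace Pool.Agent.H8.Dist

open CategoryTheory

section proj
variable {A : Type u} [Ring A]

/-- if the kernel of `f` is a direct summand then the range of `f` is projective -/
theorem range_proj_of_retract {R : Type u} [Ring R] {m n : ℕ}
    (f : (Fin m → R) →ₗ[R] (Fin n → R)) (r : (Fin m → R) →ₗ[R] (Fin m → R))
    (hr1 : ∀ x, f (r x) = 0) (hr2 : ∀ x, f x = 0 → r x = x) :
    Module.Projective R (LinearMap.range f) := by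
  have hle : LinearMap.ker f ≤ LinearMap.ker (LinearMap.id - r) := by
    intro x hx
    rw [LinearMap.mem_ker] at hx ⊢
    rw [LinearMap.sub_apply, LinearMap.id_apply, hr2 x hx, sub_self]
  let t : LinearMap.range f →ₗ[R] (Fin m → R) :=
    ((LinearMap.ker f).liftQ (LinearMap.id - r) hle).comp f.quotKerEquivRange.symm.toLinearMap
  have ht : ∀ x, t ⟨f x, ⟨x, rfl⟩⟩ = x - r x := by
    intro x
    have e2 : f.quotKerEquivRange.symm (⟨f x, ⟨x, rfl⟩⟩ : LinearMap.range f) =
        (LinearMap.ker f).mkQ x := by
      rw [LinearEquiv.symm_apply_eq]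
      rfl
    show ((LinearMap.ker f).liftQ (LinearMap.id - r) hle) (f.quotKerEquivRange.symm _) = _
    rw [e2]
    simp
  refine Module.Projective.of_split t f.rangeRestrict ?_
  apply LinearMap.ext
  rintro ⟨_, x, rfl⟩
  rw [LinearMap.comp_apply, ht, LinearMap.id_apply]
  apply Subtype.ext
  show f (x - r x) = f x
  rw [map_sub, hr1, sub_zero]

theorem range_proj_of_ker_proj [IsDomain A] (hL : LD A) (hR : RD A) {m n : ℕ}
    (f : (Fin m → A) →ₗ[A] (Fin n → A)) (hK : Module.Projective A (LinearMap.ker f)) :
    Module.Projective A (LinearMap.range f) := by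
  obtain ⟨h1, h2⟩ := ker_fg_ext hL hR n f
  obtain ⟨N, κ, hκ⟩ := exists_gen h1
  have hκ' : ∀ y, κ y ∈ LinearMap.ker f := fun y => by rw [← hκ]; exact ⟨y, rfl⟩
  let κ' : (Fin N → A) →ₗ[A] LinearMap.ker f := κ.codRestrict _ hκ'
  have hsurj : Function.Surjective κ' := by
    rintro ⟨x, hx⟩
    rw [← hκ] at hx
    obtain ⟨y, rfl⟩ := hx
    exact ⟨y, rfl⟩
  obtain ⟨s, hs⟩ := Module.projective_lifting_property κ' LinearMap.id hsurj
  choose g hg using fun k : Fin N => h2 ((LinearMap.proj k).comp s)
  refine range_proj_of_retract f (κ.comp (LinearMap.pi g)) ?_ ?_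
  · intro x
    exact LinearMap.mem_ker.1 (hκ' _)
  · intro x hx
    have h3 : LinearMap.pi g x = s ⟨x, hx⟩ := by
      ext k
      rw [LinearMap.pi_apply, ← hg k ⟨x, hx⟩]
      rfl
    rw [LinearMap.comp_apply, h3]
    have h4 := LinearMap.congr_fun hs ⟨x, hx⟩
    have h5 := congrArg Subtype.val h4
    exact h5

theorem range_proj_of_dim [IsDomain A] (hL : LD A) (hR : RD A) : ∀ (d : ℕ) {m n : ℕ}
    (f : (Fin m → A) →ₗ[A] (Fin n → A))
    (_ : HasProjectiveDimensionLT (ModuleCat.of A (LinearMap.range f)) (d + 1)),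
    Module.Projective A (LinearMap.range f) := by
  intro d
  induction d with
  | zero =>
    intro m n f hd
    rw [IsProjective.iff_projective, projective_iff_hasProjectiveDimensionLT_one]
    exact hd
  | succ d ih =>
    intro m n f hd
    obtain ⟨h1, h2⟩ := ker_fg_ext hL hR n f
    obtain ⟨N, κ, hκ⟩ := exists_gen h1
    have hS := LinearMap.shortExact_shortComplexKer f.surjective_rangeRestrict
    have h3 : HasProjectiveDimensionLT (ModuleCat.of A (Fin m → A)) (d + 1) := by
      have : Projective (ModuleCat.of A (Fin m → A)) := by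
        rw [← IsProjective.iff_projective]
        infer_instance
      have := hasProjectiveDimensionLT_of_ge (ModuleCat.of A (Fin m → A)) 1 (d + 1) (by omega)
      exact this
    have h4 := hS.hasProjectiveDimensionLT_X₁ (d + 1) h3 hd
    have hker : LinearMap.ker f.rangeRestrict = LinearMap.range κ := by
      rw [LinearMap.ker_rangeRestrict, hκ]
    have h5 : HasProjectiveDimensionLT (ModuleCat.of A (LinearMap.range κ)) (d + 1) :=
      hasProjectiveDimensionLT_of_iso (LinearEquiv.ofEq _ _ hker).toModuleIso (d + 1)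
    have h6 := ih κ h5
    apply range_proj_of_ker_proj hL hR
    rw [hκ] at h6
    exact h6

/-- a finitely generated torsionless module is the range of a map between finite free modules -/
theorem exists_range (M : Type u) [AddCommGroup M] [Module A M] [Module.Finite A M] {n : ℕ}
    (f : M →ₗ[A] (Fin n → A)) (hf : Function.Injective f) :
    ∃ (m : ℕ) (g : (Fin m → A) →ₗ[A] (Fin n → A)), Nonempty (M ≃ₗ[A] LinearMap.range g) := by
  obtain ⟨m, π, hπ⟩ := Module.Finite.exists_fin' A M
  refine ⟨m, f.comp π, ⟨?_⟩⟩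
  have : LinearMap.range (f.comp π) = LinearMap.range f :=
    LinearMap.range_comp_of_range_eq_top f (LinearMap.range_eq_top.2 hπ)
  exact (LinearEquiv.ofInjective f hf).trans (LinearEquiv.ofEq _ _ this.symm)

theorem proj_of_dim [IsDomain A] (hL : LD A) (hR : RD A) (M : Type u) [AddCommGroup M]
    [Module A M] [Module.Finite A M] {n : ℕ} (f : M →ₗ[A] (Fin n → A))
    (hf : Function.Injective f) (d : ℕ) (hd : HasProjectiveDimensionLE (ModuleCat.of A M) d) :
    Module.Projective A M := by
  obtain ⟨m, g, ⟨e⟩⟩ := exists_range M f hf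
  have h1 : HasProjectiveDimensionLT (ModuleCat.of A (LinearMap.range g)) (d + 1) := by
    have := hd
    exact hasProjectiveDimensionLT_of_iso e.toModuleIso (d + 1)
  have h2 := range_proj_of_dim hL hR d g h1
  exact Module.Projective.of_equiv e.symm

end proj

end Pool.Agent.H8.Dist
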