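import Mathlib
import Pool.Agent.H8.Dist.Coh2

/-!
# Complete resolutions by matrices
-/

universe u

namespace Pool.Agent.H8.Dist

open Matrix

section defs
variable {R : Type u} [Ring R]

/-- Two consecutive matrices `X`, `Y`: the sequence `R^a → R^b → R^c` of left modules of row
vectors, `x ↦ x X`, `y ↦ y Y`, is exact at `R^b`, and the dual sequence `R^c → R^b → R^a` of right
modules of column vectors, `z ↦ Y z`, `y ↦ X y`, is exact at `R^b` as well. -/
def StronglyExact {a b c : ℕ} (X : Matrix (Fin a) (Fin b) R) (Y : Matrix (Fin b) (Fin c) R) :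
    Prop :=
  (∀ x : Fin b → R, x ᵥ* Y = 0 ↔ ∃ z : Fin a → R, x = z ᵥ* X) ∧
  (∀ y : Fin b → R, X *ᵥ y = 0 ↔ ∃ z : Fin c → R, y = Y *ᵥ z)

/-- The left `R`-module `M` is totally reflexive (that is, finitely generated Gorenstein
projective, of complete resolution by finitely generated free modules): there is a sequence of
matrices `X i`, `i ∈ ℤ`, over `R` such that all consecutive pairs `X i`, `X (i+1)` are strongly
exact, and `M` is isomorphic to the image of the map `x ↦ x X 0` between free left modules. -/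
def TotallyReflexive (R : Type u) [Ring R] (M : Type u) [AddCommGroup M] [Module R M] : Prop :=
  ∃ (n : ℤ → ℕ) (X : ∀ i : ℤ, Matrix (Fin (n i)) (Fin (n (i + 1))) R),
    (∀ i, StronglyExact (X i) (X (i + 1))) ∧
    Nonempty (M ≃ₗ[R] LinearMap.range (X 0).vecMulLinear)

/-- matrix over the opposite ring -/
def opM {a b : ℕ} (X : Matrix (Fin a) (Fin b) R) : Matrix (Fin b) (Fin a) Rᵐᵒᵖ :=
  Matrix.of fun j i => MulOpposite.op (X i j)

theorem opM_vecMul {a b : ℕ} (X : Matrix (Fin a) (Fin b) R) (y : Fin b → R) :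
    (fun j => MulOpposite.op (y j)) ᵥ* opM X = fun i => MulOpposite.op ((X *ᵥ y) i) := by
  ext i
  simp [opM, Matrix.vecMul, Matrix.mulVec, dotProduct]

theorem opM_mulVec {a b : ℕ} (X : Matrix (Fin a) (Fin b) R) (x : Fin a → R) :
    opM X *ᵥ (fun i => MulOpposite.op (x i)) = fun j => MulOpposite.op ((x ᵥ* X) j) := by
  ext j
  simp [opM, Matrix.vecMul, Matrix.mulVec, dotProduct]

theorem opM_vecMul_eq_zero {a b : ℕ} (X : Matrix (Fin a) (Fin b) R) (y : Fin b → R) :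
    (fun j => MulOpposite.op (y j)) ᵥ* opM X = 0 ↔ X *ᵥ y = 0 := by
  rw [opM_vecMul]
  constructor
  · intro h
    ext i
    have := congrFun h i
    simpa using this
  · intro h
    rw [h]
    ext i
    simp

theorem opM_mulVec_eq_zero {a b : ℕ} (X : Matrix (Fin a) (Fin b) R) (x : Fin a → R) :
    opM X *ᵥ (fun i => MulOpposite.op (x i)) = 0 ↔ x ᵥ* X = 0 := by
  rw [opM_mulVec]
  constructor
  · intro h
    ext i
    have := congrFun h i
    simpa using this
  · intro h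
    rw [h]
    ext i
    simp

end defs

section matrices
variable {A : Type u} [Ring A]

theorem left_rel [IsDomain A] (hL : LD A) (hR : RD A) {b c : ℕ}
    (X : Matrix (Fin b) (Fin c) A) :
    ∃ (a : ℕ) (κ : Matrix (Fin a) (Fin b) A), ∀ x, x ᵥ* X = 0 ↔ ∃ z, x = z ᵥ* κ := by
  classical
  obtain ⟨h1, -⟩ := ker_fg_ext hL hR c X.vecMulLinear
  obtain ⟨N, κ, hκ⟩ := exists_gen h1
  refine ⟨N, LinearMap.toMatrixRight' κ, fun x => ?_⟩
  have h2 : ∀ z, z ᵥ* LinearMap.toMatrixRight' κ = κ z := by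
    intro z
    have : (LinearMap.toMatrixRight' κ).vecMulLinear = κ :=
      LinearMap.toMatrixRight'.symm_apply_apply κ
    rw [← Matrix.vecMulLinear_apply, this]
  have h3 : x ᵥ* X = 0 ↔ x ∈ LinearMap.ker X.vecMulLinear := by
    rw [LinearMap.mem_ker, Matrix.vecMulLinear_apply]
  rw [h3, ← hκ]
  constructor
  · rintro ⟨z, rfl⟩
    exact ⟨z, (h2 z).symm⟩
  · rintro ⟨z, rfl⟩
    exact ⟨z, (h2 z).symm⟩

theorem left_ext [IsDomain A] (hL : LD A) (hR : RD A) {a b c d : ℕ}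
    (X : Matrix (Fin c) (Fin d) A) (κ : Matrix (Fin b) (Fin c) A) (lam : Matrix (Fin a) (Fin b) A)
    (hκ : ∀ x, x ᵥ* X = 0 ↔ ∃ z, x = z ᵥ* κ) (hlam : ∀ x, x ᵥ* κ = 0 ↔ ∃ z, x = z ᵥ* lam)
    (y : Fin b → A) : lam *ᵥ y = 0 ↔ ∃ z, y = κ *ᵥ z := by
  classical
  constructor
  · intro hy
    obtain ⟨-, h2⟩ := ker_fg_ext hL hR d X.vecMulLinear
    have hrange : LinearMap.range κ.vecMulLinear = LinearMap.ker X.vecMulLinear := by
      ext x
      rw [LinearMap.mem_ker, Matrix.vecMulLinear_apply, hκ]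
      constructor
      · rintro ⟨z, rfl⟩
        exact ⟨z, rfl⟩
      · rintro ⟨z, rfl⟩
        exact ⟨z, rfl⟩
    have hle : LinearMap.ker κ.vecMulLinear ≤ LinearMap.ker (rel y) := by
      intro x hx
      rw [LinearMap.mem_ker, Matrix.vecMulLinear_apply, hlam] at hx
      obtain ⟨z, rfl⟩ := hx
      rw [LinearMap.mem_ker, rel_apply]
      have : (z ᵥ* lam) ⬝ᵥ y = z ⬝ᵥ (lam *ᵥ y) := (Matrix.dotProduct_mulVec z lam y).symm
      rw [hy, dotProduct_zero] at this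
      exact this
    let H : LinearMap.ker X.vecMulLinear →ₗ[A] A :=
      (((LinearMap.ker κ.vecMulLinear).liftQ (rel y) hle).comp
        κ.vecMulLinear.quotKerEquivRange.symm.toLinearMap).comp
        (LinearEquiv.ofEq _ _ hrange.symm).toLinearMap
    have hH : ∀ z (hz : z ᵥ* κ ∈ LinearMap.ker X.vecMulLinear), H ⟨z ᵥ* κ, hz⟩ = rel y z := by
      intro z hz
      have e2 : κ.vecMulLinear.quotKerEquivRange.symm
          (⟨z ᵥ* κ, ⟨z, rfl⟩⟩ : LinearMap.range κ.vecMulLinear) =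
          (LinearMap.ker κ.vecMulLinear).mkQ z := by
        rw [LinearEquiv.symm_apply_eq]
        rfl
      show ((LinearMap.ker κ.vecMulLinear).liftQ (rel y) hle)
        (κ.vecMulLinear.quotKerEquivRange.symm
          (⟨z ᵥ* κ, ⟨z, rfl⟩⟩ : LinearMap.range κ.vecMulLinear)) = _
      rw [e2]
      simp
    obtain ⟨g, hg⟩ := h2 H
    refine ⟨fun i => g (Pi.single i 1), ?_⟩
    have hg' : ∀ x, g x = rel (fun i => g (Pi.single i 1)) x := by
      intro x
      have : g = rel (fun i => g (Pi.single i 1)) := by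
        apply LinearMap.pi_ext'
        intro i
        apply LinearMap.ext_ring
        simp only [LinearMap.comp_apply, LinearMap.single_apply]
        rw [rel_single, one_mul]
      exact LinearMap.congr_fun this x
    ext k
    have hk : Pi.single k 1 ᵥ* κ ∈ LinearMap.ker X.vecMulLinear := by
      rw [← hrange]
      exact ⟨_, rfl⟩
    have h3 := hg ⟨_, hk⟩
    rw [hH, rel_single, one_mul, hg', rel_apply] at h3
    rw [h3, Matrix.mulVec, dotProduct]
    refine Finset.sum_congr rfl fun i _ => ?_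
    simp
  · rintro ⟨z, rfl⟩
    rw [Matrix.mulVec_mulVec]
    have h0 : lam * κ = 0 := by
      ext i j
      have h1 : (Pi.single i 1 ᵥ* lam) ᵥ* κ = 0 := (hlam _).2 ⟨Pi.single i 1, rfl⟩
      rw [Matrix.vecMul_vecMul] at h1
      have := congrFun h1 j
      simpa using this
    rw [h0, Matrix.zero_mulVec]

theorem right_rel [IsDomain A] (hL : LD A) (hR : RD A) {a b : ℕ}
    (X : Matrix (Fin a) (Fin b) A) :
    ∃ (c : ℕ) (μ : Matrix (Fin b) (Fin c) A), ∀ y, X *ᵥ y = 0 ↔ ∃ z, y = μ *ᵥ z := by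
  obtain ⟨c, κ, hκ⟩ := left_rel (LD_op hR) (RD_op hL) (opM X)
  refine ⟨c, Matrix.of fun i j => (κ j i).unop, fun y => ?_⟩
  rw [← opM_vecMul_eq_zero, hκ]
  constructor
  · rintro ⟨z, hz⟩
    refine ⟨fun j => (z j).unop, ?_⟩
    ext i
    have := congrArg MulOpposite.unop (congrFun hz i)
    rw [MulOpposite.unop_op] at this
    rw [this]
    simp [Matrix.vecMul, Matrix.mulVec, dotProduct]
  · rintro ⟨z, rfl⟩
    refine ⟨fun j => MulOpposite.op (z j), ?_⟩
    ext i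
    simp [Matrix.vecMul, Matrix.mulVec, dotProduct]

theorem op_right_iff {a b c : ℕ} (X : Matrix (Fin a) (Fin b) A) (μ : Matrix (Fin b) (Fin c) A)
    (h : ∀ y, X *ᵥ y = 0 ↔ ∃ z, y = μ *ᵥ z) (y : Fin b → Aᵐᵒᵖ) :
    y ᵥ* opM X = 0 ↔ ∃ z, y = z ᵥ* opM μ := by
  have hy : y = fun j => MulOpposite.op ((y j).unop) := rfl
  rw [hy, opM_vecMul_eq_zero, h]
  constructor
  · rintro ⟨z, hz⟩
    refine ⟨fun j => MulOpposite.op (z j), ?_⟩
    rw [opM_vecMul, ← hz]
  · rintro ⟨z, hz⟩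
    refine ⟨fun j => (z j).unop, ?_⟩
    have hz' : z = fun j => MulOpposite.op ((z j).unop) := rfl
    rw [hz', opM_vecMul] at hz
    ext i
    have := congrArg MulOpposite.unop (congrFun hz i)
    simpa using this

theorem right_ext [IsDomain A] (hL : LD A) (hR : RD A) {a b c d : ℕ}
    (X : Matrix (Fin a) (Fin b) A) (μ : Matrix (Fin b) (Fin c) A) (ν : Matrix (Fin c) (Fin d) A)
    (hμ : ∀ y, X *ᵥ y = 0 ↔ ∃ z, y = μ *ᵥ z) (hν : ∀ y, μ *ᵥ y = 0 ↔ ∃ z, y = ν *ᵥ z)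
    (x : Fin c → A) : x ᵥ* ν = 0 ↔ ∃ z, x = z ᵥ* μ := by
  have h := left_ext (LD_op hR) (RD_op hL) (opM X) (opM μ) (opM ν) (op_right_iff X μ hμ)
    (op_right_iff μ ν hν) (fun i => MulOpposite.op (x i))
  rw [opM_mulVec_eq_zero] at h
  rw [h]
  constructor
  · rintro ⟨z, hz⟩
    refine ⟨fun j => (z j).unop, ?_⟩
    have hz' : z = fun j => MulOpposite.op ((z j).unop) := rfl
    rw [hz', opM_mulVec] at hz
    ext i
    have := congrArg MulOpposite.unop (congrFun hz i)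
    simpa using this
  · rintro ⟨z, rfl⟩
    exact ⟨fun j => MulOpposite.op (z j), by rw [opM_mulVec]⟩

/-- a matrix of any size -/
def Mat (A : Type u) : Type u := Σ (a b : ℕ), Matrix (Fin a) (Fin b) A

/-- consecutive matrices -/
def Next (p q : Mat A) : Prop :=
  ∃ (a b c : ℕ) (X : Matrix (Fin a) (Fin b) A) (Y : Matrix (Fin b) (Fin c) A),
    p = ⟨a, b, X⟩ ∧ q = ⟨b, c, Y⟩ ∧ StronglyExact X Y

/-- the cokernel of `p` is torsionless -/
def PL (p : Mat A) : Prop :=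
  ∃ (d : ℕ) (X : Matrix (Fin p.2.1) (Fin d) A), ∀ x, x ᵥ* X = 0 ↔ ∃ z, x = z ᵥ* p.2.2

/-- the dual condition -/
def PR (p : Mat A) : Prop :=
  ∃ (d : ℕ) (X : Matrix (Fin d) (Fin p.1) A), ∀ y, X *ᵥ y = 0 ↔ ∃ z, y = p.2.2 *ᵥ z

theorem stepL [IsDomain A] (hL : LD A) (hR : RD A) (p : Mat A) (hp : PL p) :
    ∃ q : Mat A, PL q ∧ Next q p := by
  obtain ⟨b, c, κ⟩ := p
  obtain ⟨d, X, hX⟩ := hp
  obtain ⟨a, lam, hlam⟩ := left_rel hL hR κ
  exact ⟨⟨a, b, lam⟩, ⟨c, κ, hlam⟩, a, b, c, lam, κ, rfl, rfl, hlam,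
    left_ext hL hR X κ lam hX hlam⟩

theorem stepR [IsDomain A] (hL : LD A) (hR : RD A) (p : Mat A) (hp : PR p) :
    ∃ q : Mat A, PR q ∧ Next p q := by
  obtain ⟨b, c, μ⟩ := p
  obtain ⟨d, X, hX⟩ := hp
  obtain ⟨e, ν, hν⟩ := right_rel hL hR μ
  exact ⟨⟨c, e, ν⟩, ⟨b, μ, hν⟩, b, c, e, μ, ν, rfl, rfl, right_ext hL hR X μ ν hX hν, hν⟩

theorem exists_seq {S : Type u} (P : S → Prop) (r : S → S → Prop)
    (h : ∀ p, P p → ∃ q, P q ∧ r p q) (p₀ : S) (h₀ : P p₀) :
    ∃ u : ℕ → S, u 0 = p₀ ∧ ∀ k, r (u k) (u (k + 1)) := by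
  choose! f hf1 hf2 using h
  let w : ℕ → {p // P p} := fun k => Nat.rec ⟨p₀, h₀⟩ (fun _ q => ⟨f q.1, hf1 _ q.2⟩) k
  exact ⟨fun k => (w k).1, rfl, fun k => hf2 _ (w k).2⟩

theorem strong_of_next {p q : Mat A} (h : Next p q) (hpq : p.2.1 = q.1) {c : ℕ}
    (hq : q.2.1 = c) :
    StronglyExact (p.2.2.submatrix id (Fin.cast hpq.symm) : Matrix (Fin p.1) (Fin q.1) A)
      (q.2.2.submatrix id (Fin.cast hq.symm) : Matrix (Fin q.1) (Fin c) A) := by
  obtain ⟨a, b, c', X, Y, rfl, rfl, hs⟩ := h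
  subst hq
  exact hs

theorem range_cast {p : Mat A} {c : ℕ} (hp : p.2.1 = c) :
    Nonempty (LinearMap.range p.2.2.vecMulLinear ≃ₗ[A] LinearMap.range
      (p.2.2.submatrix id (Fin.cast hp.symm) : Matrix (Fin p.1) (Fin c) A).vecMulLinear) := by
  subst hp
  exact ⟨LinearEquiv.refl _ _⟩

theorem equiv_of_ker_eq {M N P : Type*} [AddCommGroup M] [Module A M] [AddCommGroup N]
    [Module A N] [AddCommGroup P] [Module A P] (f : M →ₗ[A] N) (g : M →ₗ[A] P)
    (h : LinearMap.ker f = LinearMap.ker g) :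
    Nonempty (LinearMap.range f ≃ₗ[A] LinearMap.range g) :=
  ⟨f.quotKerEquivRange.symm.trans ((Submodule.quotEquivOfEq _ _ h).trans g.quotKerEquivRange)⟩

theorem totallyReflexive_range [IsDomain A] (hL : LD A) (hR : RD A) {m n : ℕ}
    (X₀ : Matrix (Fin m) (Fin n) A) (M : Type u) [AddCommGroup M] [Module A M]
    (e : M ≃ₗ[A] LinearMap.range X₀.vecMulLinear) : TotallyReflexive A M := by
  obtain ⟨a, κ, hκ⟩ := left_rel hL hR X₀
  obtain ⟨c, Y, hY⟩ := right_rel hL hR κ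
  have hκX : κ * X₀ = 0 := by
    ext i j
    have h1 : (Pi.single i 1 ᵥ* κ) ᵥ* X₀ = 0 := (hκ _).2 ⟨Pi.single i 1, rfl⟩
    rw [Matrix.vecMul_vecMul] at h1
    have := congrFun h1 j
    simpa using this
  have hκY : κ * Y = 0 := by
    ext i j
    have h1 : κ *ᵥ (Y *ᵥ Pi.single j 1) = 0 := (hY _).2 ⟨Pi.single j 1, rfl⟩
    rw [Matrix.mulVec_mulVec] at h1
    have := congrFun h1 i
    simpa using this
  have hleft : ∀ x, x ᵥ* Y = 0 ↔ ∃ z, x = z ᵥ* κ := by
    intro x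
    constructor
    · intro hx
      rw [← hκ]
      ext j
      have h1 : κ *ᵥ (X₀ *ᵥ Pi.single j 1) = 0 := by
        rw [Matrix.mulVec_mulVec, hκX, Matrix.zero_mulVec]
      obtain ⟨z, hz⟩ := (hY _).1 h1
      have h2 : x ⬝ᵥ (X₀ *ᵥ Pi.single j 1) = 0 := by
        rw [hz, Matrix.dotProduct_mulVec, hx, zero_dotProduct]
      rw [Matrix.dotProduct_mulVec] at h2
      simpa using h2
    · rintro ⟨z, rfl⟩
      rw [Matrix.vecMul_vecMul, hκY, Matrix.vecMul_zero]
  obtain ⟨v, hv0, hv⟩ := exists_seq (PL (A := A)) (fun p q => Next q p) (stepL hL hR)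
    ⟨a, m, κ⟩ ⟨n, X₀, hκ⟩
  obtain ⟨w, hw0, hw⟩ := exists_seq (PR (A := A)) Next (stepR hL hR) ⟨m, c, Y⟩ ⟨a, κ, hY⟩
  let s : ℤ → Mat A := fun i => match i with
    | Int.ofNat k => w k
    | Int.negSucc k => v k
  have hs : ∀ i, Next (s i) (s (i + 1)) := by
    intro i
    rcases i with k | k
    · exact hw k
    · rcases k with _ | k
      · show Next (v 0) (w 0)
        rw [hv0, hw0]
        exact ⟨a, m, c, κ, Y, rfl, rfl, hleft, hY⟩
      · exact hv k
  have hb : ∀ i, (s i).2.1 = (s (i + 1)).1 := by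
    intro i
    obtain ⟨a, b, c', X, Y, h1, h2, -⟩ := hs i
    rw [h1, h2]
  refine ⟨fun i => (s i).1, fun i => (s i).2.2.submatrix id (Fin.cast (hb i).symm), ?_, ?_⟩
  · intro i
    exact strong_of_next (hs i) (hb i) (hb (i + 1))
  · obtain ⟨e1⟩ := range_cast (p := s 0) (hb 0)
    have hker : LinearMap.ker X₀.vecMulLinear = LinearMap.ker Y.vecMulLinear := by
      ext x
      rw [LinearMap.mem_ker, LinearMap.mem_ker, Matrix.vecMulLinear_apply,
        Matrix.vecMulLinear_apply, hκ, hleft]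
    obtain ⟨e2⟩ := equiv_of_ker_eq _ _ hker
    have h0 : s 0 = ⟨m, c, Y⟩ := hw0
    have e3 : LinearMap.range Y.vecMulLinear ≃ₗ[A] LinearMap.range (s 0).2.2.vecMulLinear := by
      rw [h0]
    exact ⟨e.trans (e2.trans (e3.trans e1))⟩

theorem totallyReflexive [IsDomain A] (hL : LD A) (hR : RD A) (M : Type u) [AddCommGroup M]
    [Module A M] [Module.Finite A M] {n : ℕ} (f : M →ₗ[A] (Fin n → A))
    (hf : Function.Injective f) : TotallyReflexive A M := by
  classical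
  obtain ⟨m, g, ⟨e⟩⟩ := exists_range M f hf
  have h1 : (LinearMap.toMatrixRight' g).vecMulLinear = g :=
    LinearMap.toMatrixRight'.symm_apply_apply g
  have e' : M ≃ₗ[A] LinearMap.range (LinearMap.toMatrixRight' g).vecMulLinear := by
    rw [h1]
    exact e
  exact totallyReflexive_range hL hR _ M e'

end matrices

end Pool.Agent.H8.Dist
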